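import Pool.Agent.MPcc1856.Final

set_option autoImplicit false

/-!
The construction for every number of points.
-/

namespace Pool.Agent.MPcc1856

open Filter Topology

/-- The doubled point set with one more point, abstractly: coordinates in general position for
which the nested structure of the first `2 * N` points survives. -/
theorem exists_coords_succ (N : ℕ) : ∃ X Y Z : ℕ → ℝ, StrictMono X ∧
    (∀ a b c d : ℕ, a < 2 * N + 1 → b < 2 * N + 1 → c < 2 * N + 1 → d < 2 * N + 1 →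
      a ≠ b → a ≠ c → a ≠ d →
      b ≠ c → b ≠ d → c ≠ d → W3 X Y Z a b c d ≠ 0) ∧
    ∀ F : Finset ℕ, 55 ≤ F.card → (∀ x ∈ F, x < 2 * N) → (∀ x ∈ F, ∀ y ∈ F, x % 2 = y % 2) →
      ∃ a ∈ F, ∃ b ∈ F, ∃ c ∈ F, ∃ d ∈ F, ∃ y < 2 * N, y % 2 ≠ a % 2 ∧
        0 < W3 X Y Z a b c d ∧ 0 < W3 X Y Z y b c d ∧ 0 < W3 X Y Z a y c d ∧
        0 < W3 X Y Z a b y d ∧ 0 < W3 X Y Z a b c y := by
  obtain ⟨g, h, key⟩ := exists_points N
  have e1 : ∀ᶠ e in 𝓝[>] (0 : ℝ), ∀ a b c d : Fin (2 * N + 1), a ≠ b → a ≠ c → a ≠ d →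
      b ≠ c → b ≠ d → c ≠ d → W3 (cX e) (cY g e) (cZ h e) a b c d ≠ 0 := by
    rw [eventually_all]; intro a
    rw [eventually_all]; intro b
    rw [eventually_all]; intro c
    rw [eventually_all]; intro d
    by_cases hc : a ≠ b ∧ a ≠ c ∧ a ≠ d ∧ b ≠ c ∧ b ≠ d ∧ c ≠ d
    · obtain ⟨h1, h2, h3, h4, h5, h6⟩ := hc
      filter_upwards [W3_ne g h a b c d (fun e => h1 (Fin.ext e)) (fun e => h2 (Fin.ext e))
        (fun e => h3 (Fin.ext e)) (fun e => h4 (Fin.ext e)) (fun e => h5 (Fin.ext e))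
        (fun e => h6 (Fin.ext e))] with e he _ _ _ _ _ _
      exact he
    · filter_upwards with e h1 h2 h3 h4 h5 h6
      exact absurd ⟨h1, h2, h3, h4, h5, h6⟩ hc
  have e2 : ∀ᶠ e in 𝓝[>] (0 : ℝ), ∀ a b c d : Fin (2 * N),
      0 < D3 g h ((a : ℕ) / 2) ((b : ℕ) / 2) ((c : ℕ) / 2) ((d : ℕ) / 2) →
      0 < W3 (cX e) (cY g e) (cZ h e) a b c d := by
    rw [eventually_all]; intro a
    rw [eventually_all]; intro b
    rw [eventually_all]; intro c
    rw [eventually_all]; intro d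
    by_cases hc : 0 < D3 g h ((a : ℕ) / 2) ((b : ℕ) / 2) ((c : ℕ) / 2) ((d : ℕ) / 2)
    · filter_upwards [W3_pos g h a b c d hc] with e he _
      exact he
    · filter_upwards with e h1
      exact absurd h1 hc
  obtain ⟨e, ⟨h1, h2⟩, h3⟩ := ((e1.and e2).and self_mem_nhdsWithin).exists
  refine ⟨cX e, cY g e, cZ h e, ?_, ?_, ?_⟩
  · intro u v huv
    unfold cX
    have h4 : ((u / 2 : ℕ) : ℝ) ≤ ((v / 2 : ℕ) : ℝ) := by
      exact_mod_cast Nat.div_le_div_right huv.le
    have h5 : (u : ℝ) < v := by exact_mod_cast huv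
    have h6 : (0 : ℝ) < e := h3
    have := mul_lt_mul_of_pos_left h5 h6
    linarith
  · intro a b c d ha hb hc hd h4 h5 h6 h7 h8 h9
    exact h1 ⟨a, ha⟩ ⟨b, hb⟩ ⟨c, hc⟩ ⟨d, hd⟩ (fun e => h4 (congrArg Fin.val e))
      (fun e => h5 (congrArg Fin.val e)) (fun e => h6 (congrArg Fin.val e))
      (fun e => h7 (congrArg Fin.val e)) (fun e => h8 (congrArg Fin.val e))
      (fun e => h9 (congrArg Fin.val e))
  · intro F hF hFN hpar
    have hinj : Set.InjOn (fun x => x / 2) (F : Set ℕ) := by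
      intro x hx y hy hxy
      have := hpar x hx y hy
      simp only at hxy
      omega
    obtain ⟨a, ha, b, hb, c, hc, d, hd, y, hy, ht⟩ := key (F.image (fun x => x / 2))
      (by rw [Finset.card_image_of_injOn hinj]; exact hF) (by
        intro x hx
        obtain ⟨z, hz, rfl⟩ := Finset.mem_image.1 hx
        have := hFN z hz
        omega)
    obtain ⟨a', ha', rfl⟩ := Finset.mem_image.1 ha
    obtain ⟨b', hb', rfl⟩ := Finset.mem_image.1 hb
    obtain ⟨c', hc', rfl⟩ := Finset.mem_image.1 hc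
    obtain ⟨d', hd', rfl⟩ := Finset.mem_image.1 hd
    have hy2 : (2 * y + (1 - a' % 2)) / 2 = y := by omega
    have hyN : 2 * y + (1 - a' % 2) < 2 * N := by omega
    refine ⟨a', ha', b', hb', c', hc', d', hd', 2 * y + (1 - a' % 2), hyN, by omega, ?_, ?_, ?_,
      ?_, ?_⟩
    · exact h2 ⟨a', hFN _ ha'⟩ ⟨b', hFN _ hb'⟩ ⟨c', hFN _ hc'⟩ ⟨d', hFN _ hd'⟩ ht.o
    · exact h2 ⟨_, hyN⟩ ⟨b', hFN _ hb'⟩ ⟨c', hFN _ hc'⟩ ⟨d', hFN _ hd'⟩
        (by simp only [hy2]; exact ht.o1)
    · exact h2 ⟨a', hFN _ ha'⟩ ⟨_, hyN⟩ ⟨c', hFN _ hc'⟩ ⟨d', hFN _ hd'⟩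
        (by simp only [hy2]; exact ht.o2)
    · exact h2 ⟨a', hFN _ ha'⟩ ⟨b', hFN _ hb'⟩ ⟨_, hyN⟩ ⟨d', hFN _ hd'⟩
        (by simp only [hy2]; exact ht.o3)
    · exact h2 ⟨a', hFN _ ha'⟩ ⟨b', hFN _ hb'⟩ ⟨c', hFN _ hc'⟩ ⟨_, hyN⟩
        (by simp only [hy2]; exact ht.o4)

/-- For every `n`: a two-coloured set of exactly `n` points in general position all of whose
partitions into monochromatic classes with disjoint hulls have at least `(n - 1) / 54` classes. -/
theorem main_all (n : ℕ) : ∃ X : Finset (EuclideanSpace ℝ (Fin 3)), X.card = n ∧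
    (∀ S : Finset (EuclideanSpace ℝ (Fin 3)), S ⊆ X → S.card = 4 →
        AffineIndependent ℝ (fun p : S => (p : EuclideanSpace ℝ (Fin 3)))) ∧
    ∃ c : EuclideanSpace ℝ (Fin 3) → Bool, ∀ (k : ℕ) (f : EuclideanSpace ℝ (Fin 3) → Fin k),
      (∀ x ∈ X, ∀ y ∈ X, f x = f y → c x = c y) →
      (∀ i j : Fin k, i ≠ j → Disjoint (convexHull ℝ {x | x ∈ X ∧ f x = i})
                       (convexHull ℝ {x | x ∈ X ∧ f x = j})) → n ≤ 54 * k + 1 := by
  classical
  obtain ⟨N, hN1, hN2⟩ : ∃ N, 2 * N ≤ n ∧ n < 2 * N + 2 := ⟨n / 2, by omega, by omega⟩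
  obtain ⟨X, Y, Z, hX, hgen, key⟩ := exists_coords_succ N
  have hinj := pt_inj X Y Z hX
  refine ⟨(Finset.range n).image (pt X Y Z), ?_, ?_, ?_⟩
  · rw [Finset.card_image_of_injective _ hinj, Finset.card_range]
  · intro S hS hS4
    have hmem : ∀ p : S, ∃ l < 2 * N + 1, pt X Y Z l = p := by
      intro p
      obtain ⟨l, hl, h⟩ := Finset.mem_image.1 (hS p.2)
      exact ⟨l, by have := Finset.mem_range.1 hl; omega, h⟩
    choose lab hlab hpt using hmem
    have hlinj : Function.Injective lab := by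
      intro p q hpq
      apply Subtype.ext
      rw [← hpt p, ← hpt q, hpq]
    let eqv : S ≃ Fin 4 := S.equivFinOfCardEq hS4
    have hne : ∀ i j : Fin 4, i ≠ j → lab (eqv.symm i) ≠ lab (eqv.symm j) := fun i j hij h =>
      hij (eqv.symm.injective (hlinj h))
    have haff := aff4 X Y Z (fun i => lab (eqv.symm i))
      (hgen _ _ _ _ (hlab _) (hlab _) (hlab _) (hlab _) (hne 0 1 (by decide))
        (hne 0 2 (by decide)) (hne 0 3 (by decide)) (hne 1 2 (by decide)) (hne 1 3 (by decide))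
        (hne 2 3 (by decide)))
    have := haff.comp_embedding eqv.toEmbedding
    convert this using 1
    funext p
    simp [hpt]
  · refine ⟨fun x => decide (∃ l, pt X Y Z l = x ∧ l % 2 = 1), ?_⟩
    intro k f hmono hdisj
    have hcol : ∀ u v : ℕ, u < 2 * N → v < 2 * N → f (pt X Y Z u) = f (pt X Y Z v) →
        u % 2 = v % 2 := by
      intro u v hu hv huv
      have h1 := hmono _ (Finset.mem_image_of_mem _ (Finset.mem_range.2 (hu.trans_le hN1))) _
        (Finset.mem_image_of_mem _ (Finset.mem_range.2 (hv.trans_le hN1))) huv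
      have h2 : ∀ w : ℕ, (∃ l, pt X Y Z l = pt X Y Z w ∧ l % 2 = 1) ↔ w % 2 = 1 := by
        intro w
        constructor
        · rintro ⟨l, hl, hl2⟩
          rwa [← hinj hl]
        · intro hw
          exact ⟨w, rfl, hw⟩
      have h3 := decide_eq_decide.1 h1
      rw [h2, h2] at h3
      omega
    by_contra hk
    obtain ⟨i, -, hi⟩ := Finset.exists_lt_card_fiber_of_mul_lt_card_of_maps_to
      (s := Finset.range (2 * N)) (t := (Finset.univ : Finset (Fin k)))
      (f := fun l => f (pt X Y Z l)) (n := 54) (fun _ _ => Finset.mem_univ _)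
      (by rw [Finset.card_fin, Finset.card_range]; omega)
    obtain ⟨a, ha, b, hb, c, hc, d, hd, y, hy, hya, o, o1, o2, o3, o4⟩ :=
      key ((Finset.range (2 * N)).filter (fun l => f (pt X Y Z l) = i)) (by omega)
        (fun x hx => Finset.mem_range.1 (Finset.mem_filter.1 hx).1)
        (fun u hu v hv => hcol u v (Finset.mem_range.1 (Finset.mem_filter.1 hu).1)
          (Finset.mem_range.1 (Finset.mem_filter.1 hv).1)
          ((Finset.mem_filter.1 hu).2.trans (Finset.mem_filter.1 hv).2.symm))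
    have hin : ∀ l ∈ (Finset.range (2 * N)).filter (fun l => f (pt X Y Z l) = i),
        pt X Y Z l ∈ {x | x ∈ (Finset.range n).image (pt X Y Z) ∧ f x = i} := by
      intro l hl
      exact ⟨Finset.mem_image_of_mem _ (Finset.mem_range.2
        ((Finset.mem_range.1 (Finset.mem_filter.1 hl).1).trans_le hN1)), (Finset.mem_filter.1 hl).2⟩
    have hhull := hull_mem X Y Z _ a b c d y (hin a ha) (hin b hb) (hin c hc) (hin d hd)
      o o1 o2 o3 o4
    have hne : i ≠ f (pt X Y Z y) := by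
      intro h
      exact hya (hcol y a hy (Finset.mem_range.1 (Finset.mem_filter.1 ha).1)
        (h.symm.trans (Finset.mem_filter.1 ha).2.symm))
    have hself : pt X Y Z y ∈ convexHull ℝ
        {x | x ∈ (Finset.range n).image (pt X Y Z) ∧ f x = f (pt X Y Z y)} :=
      subset_convexHull ℝ _ ⟨Finset.mem_image_of_mem _ (Finset.mem_range.2 (hy.trans_le hN1)), rfl⟩
    exact Set.disjoint_left.1 (hdisj _ _ hne) hhull hself

end Pool.Agent.MPcc1856
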