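import Pool.Agent.MPcc1856.Planar

set_option autoImplicit false

/-!
The cup lemma and the planar empty-triangle lemma.
-/

namespace Pool.Agent.MPcc1856

theorem pow_half_ne (l s : ℕ) : (s + 2 ^ l) % 2 ^ (l + 1) ≠ s % 2 ^ (l + 1) := by
  intro h
  have h1 : (s + 2 ^ l) ≡ s + 0 [MOD 2 ^ (l + 1)] := by rw [add_zero]; exact h
  have h2 := Nat.ModEq.add_left_cancel' s h1
  have h3 := (Nat.modEq_zero_iff_dvd).1 h2
  have h4 := Nat.le_of_dvd (by positivity) h3
  rw [pow_succ] at h4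
  have : 0 < 2 ^ l := by positivity
  omega

theorem add_pow_mod (l s : ℕ) : (s + 2 ^ l) % 2 ^ l = s % 2 ^ l := by
  simp

/-- Two numbers congruent mod `2 ^ l` but not mod `2 ^ (l+1)`. -/
theorem opp_class {l s t : ℕ} (h1 : s % 2 ^ l = t % 2 ^ l) (h2 : s % 2 ^ (l + 1) ≠ t % 2 ^ (l + 1)) :
    s % 2 ^ (l + 1) = (t + 2 ^ l) % 2 ^ (l + 1) := by
  have h3 : s % 2 ^ l = (t + 2 ^ l) % 2 ^ l := by rw [add_pow_mod, h1]
  rw [mod_pow_succ_iff 2 l s (t + 2 ^ l) h3]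
  have h4 : ¬ (s / 2 ^ l % 2 = t / 2 ^ l % 2) := fun h => h2 ((mod_pow_succ_iff 2 l s t h1).2 h)
  have h5 : ¬ ((t + 2 ^ l) / 2 ^ l % 2 = t / 2 ^ l % 2) := fun h =>
    pow_half_ne l t ((mod_pow_succ_iff 2 l (t + 2 ^ l) t (add_pow_mod l t)).2 h)
  omega

theorem Horton.dig_eq {N : ℕ} {g τ : ℕ → ℝ} (h : Horton N g τ) {l u v : ℕ}
    (h1 : τ (u / 2 ^ l % 2) = τ (v / 2 ^ l % 2)) : u / 2 ^ l % 2 = v / 2 ^ l % 2 := by
  rcases Nat.mod_two_eq_zero_or_one (u / 2 ^ l) with hu | hu <;>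
    rcases Nat.mod_two_eq_zero_or_one (v / 2 ^ l) with hv | hv <;>
    rw [hu, hv] at h1 ⊢ <;>
    rcases h.hτ with ⟨h2, h3⟩ | ⟨h2, h3⟩ <;> rw [h2, h3] at h1 <;> norm_num at h1

theorem cup {N : ℕ} {g τ : ℕ → ℝ} (h : Horton N g τ) {q : ℕ} (hq : 0 < q)
    (hodd : Nat.Coprime 2 q) (c' k : ℕ) (T : Finset ℕ) (hT : 4 ≤ T.card) (hN : ∀ x ∈ T, x < N)
    (hk : ∀ x ∈ T, ∀ y ∈ T, x % 2 ^ k = y % 2 ^ k) (hqT : ∀ x ∈ T, ∀ y ∈ T, x % q = y % q) :
    ∃ s ∈ T, ∃ s' ∈ T, ∃ y, s < y ∧ y < s' ∧ y % 2 ^ k = s % 2 ^ k ∧ y % q = c' % q ∧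
      0 < D2 g s s' y := by
  classical
  obtain ⟨l, hkl, hl, x0, hx0, y0, hy0, hxy0⟩ := exists_split 2 le_rfl T (by omega) k hk
  set Tl := T.filter (fun x => τ (x / 2 ^ l % 2) = 1) with hTl
  set Tu := T.filter (fun x => ¬ τ (x / 2 ^ l % 2) = 1) with hTu
  have hsum : Tl.card + Tu.card = T.card := Finset.card_filter_add_card_filter_not _
  have hup : ∀ x ∈ Tu, τ (x / 2 ^ l % 2) = -1 := by
    intro x hx
    rcases h.τ_cases (x / 2 ^ l) with h1 | h1
    · exact absurd h1 (Finset.mem_filter.1 hx).2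
    · exact h1
  have hlow : ∀ x ∈ Tl, τ (x / 2 ^ l % 2) = 1 := fun x hx => (Finset.mem_filter.1 hx).2
  have hcop : Nat.Coprime (2 ^ (l + 1)) q := Nat.Coprime.pow_left _ hodd
  have hcop' : Nat.Coprime (2 ^ l) q := Nat.Coprime.pow_left _ hodd
  have hne : Tl.Nonempty := by
    -- one of `x0`, `y0` is low
    have hd : x0 / 2 ^ l % 2 ≠ y0 / 2 ^ l % 2 := fun hd =>
      hxy0 ((mod_pow_succ_iff 2 l x0 y0 (hl x0 hx0 y0 hy0)).2 hd)
    rcases h.τ_cases (x0 / 2 ^ l) with h1 | h1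
    · exact ⟨x0, Finset.mem_filter.2 ⟨hx0, h1⟩⟩
    · rcases h.τ_cases (y0 / 2 ^ l) with h2 | h2
      · exact ⟨y0, Finset.mem_filter.2 ⟨hy0, h2⟩⟩
      · exact absurd (h.dig_eq (h1.trans h2.symm)) hd
  have hpow : 0 < 2 ^ l := by positivity
  by_cases hcase : 2 ≤ Tl.card
  · -- two low elements
    obtain ⟨s, hs, s', hs', hss⟩ : ∃ s ∈ Tl, ∃ s' ∈ Tl, s < s' := by
      obtain ⟨a, ha, b, hb, hab⟩ := Finset.one_lt_card.1 (by omega : 1 < Tl.card)
      rcases lt_or_gt_of_ne hab with h1 | h1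
      · exact ⟨a, ha, b, hb, h1⟩
      · exact ⟨b, hb, a, ha, h1⟩
    have hsT := (Finset.mem_filter.1 hs).1
    have hs'T := (Finset.mem_filter.1 hs').1
    have hcl : s % 2 ^ (l + 1) = s' % 2 ^ (l + 1) :=
      (mod_pow_succ_iff 2 l s s' (hl s hsT s' hs'T)).2
        (h.dig_eq ((hlow s hs).trans (hlow s' hs').symm))
    have hdvd : 2 ^ (l + 1) * q ∣ s' - s := by
      apply Nat.Coprime.mul_dvd_of_dvd_of_dvd hcop
      · exact (Nat.modEq_iff_dvd' hss.le).1 hcl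
      · exact (Nat.modEq_iff_dvd' hss.le).1 (hqT s hsT s' hs'T)
    have hle := Nat.le_of_dvd (by omega) hdvd
    obtain ⟨y, hy1, hy2, hy3, hy4⟩ := exists_rep (2 ^ (l + 1)) q (by positivity) hq hcop
      (s + 2 ^ l) c' s
    have hys : y % 2 ^ (l + 1) ≠ s % 2 ^ (l + 1) := by
      rw [hy3]; exact pow_half_ne l s
    have hyl : y % 2 ^ l = s % 2 ^ l := by
      rw [mod_of_mod_pow 2 (Nat.le_succ l) hy3, add_pow_mod]
    have hne' : y ≠ s := fun e => hys (by rw [e])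
    refine ⟨s, hsT, s', hs'T, y, by omega, by omega, mod_of_mod_pow 2 hkl hyl, hy4, ?_⟩
    have h5 := h.P l s s' y (hN s hsT) (hN s' hs'T) (by have := hN s' hs'T; omega) hss hcl hyl hys
    rw [hlow s hs, one_mul] at h5
    exact h5
  · -- a single low element
    obtain ⟨t, ht⟩ := hne
    have htT := (Finset.mem_filter.1 ht).1
    have hTu3 : 3 ≤ Tu.card := by omega
    have hopp : ∀ b ∈ Tu, b % 2 ^ (l + 1) ≠ t % 2 ^ (l + 1) := by
      intro b hb heq
      have h1 := digit_eq_of_mod 2 l b t heq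
      have h2 := hup b hb
      rw [h1, hlow t ht] at h2
      norm_num at h2
    have hodd' : ∀ b ∈ Tu, ∃ m : ℤ, (b : ℤ) - t = 2 ^ l * q * m ∧ ¬ (2 : ℤ) ∣ m := by
      intro b hb
      have hbT := (Finset.mem_filter.1 hb).1
      have h1 : (2 ^ l : ℤ) ∣ (b : ℤ) - t := by
        have := (Nat.modEq_iff_dvd).1 (hl t htT b hbT)
        exact_mod_cast this
      have h2 : (q : ℤ) ∣ (b : ℤ) - t := (Nat.modEq_iff_dvd).1 (hqT t htT b hbT)
      have h3 : ((2 ^ l : ℤ) * q) ∣ (b : ℤ) - t := by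
        apply IsCoprime.mul_dvd _ h1 h2
        have := Nat.isCoprime_iff_coprime.2 hcop'
        exact_mod_cast this
      obtain ⟨m, hm⟩ := h3
      refine ⟨m, hm, ?_⟩
      rintro ⟨m', rfl⟩
      apply hopp b hb
      have h4 : ((2 ^ (l + 1) : ℕ) : ℤ) ∣ (b : ℤ) - t := by
        rw [hm]
        push_cast
        rw [pow_succ]
        exact ⟨q * m', by ring⟩
      exact ((Nat.modEq_iff_dvd).2 h4).symm
    obtain ⟨b, hb, hfar⟩ : ∃ b ∈ Tu, t + 3 * (2 ^ l * q) ≤ b ∨ b + 3 * (2 ^ l * q) ≤ t := by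
      by_contra hcon
      push Not at hcon
      have hsub : Tu ⊆ {t + 2 ^ l * q, t - 2 ^ l * q} := by
        intro b hb
        obtain ⟨m, hm, hm2⟩ := hodd' b hb
        obtain ⟨h1, h2⟩ := hcon b hb
        have hM : (0 : ℤ) < 2 ^ l * q := by positivity
        have h3 : (b : ℤ) - t < 3 * (2 ^ l * q) := by
          have : (b : ℤ) < ((t + 3 * (2 ^ l * q) : ℕ) : ℤ) := by exact_mod_cast h1
          push_cast at this
          linarith
        have h4 : -(3 * (2 ^ l * q : ℤ)) < (b : ℤ) - t := by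
          have : (t : ℤ) < ((b + 3 * (2 ^ l * q) : ℕ) : ℤ) := by exact_mod_cast h2
          push_cast at this
          linarith
        rw [hm] at h3 h4
        have h5 : m < 3 := by
          by_contra h6
          push Not at h6
          nlinarith
        have h6 : -3 < m := by
          by_contra h7
          push Not at h7
          nlinarith
        have h7 : m = 1 ∨ m = -1 := by
          interval_cases m
          · exact absurd ⟨-1, by norm_num⟩ hm2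
          · right; rfl
          · exact absurd ⟨0, by norm_num⟩ hm2
          · left; rfl
          · exact absurd ⟨1, by norm_num⟩ hm2
        rw [Finset.mem_insert, Finset.mem_singleton]
        rcases h7 with rfl | rfl
        · left
          have : (b : ℤ) = ((t + 2 ^ l * q : ℕ) : ℤ) := by
            push_cast
            linarith
          exact_mod_cast this
        · right
          have : ((b + 2 ^ l * q : ℕ) : ℤ) = (t : ℤ) := by
            push_cast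
            linarith
          have h8 : b + 2 ^ l * q = t := by exact_mod_cast this
          omega
      have h1 := Finset.card_le_card hsub
      have h2 : ({t + 2 ^ l * q, t - 2 ^ l * q} : Finset ℕ).card ≤ 2 := Finset.card_le_two
      omega
    have hbT := (Finset.mem_filter.1 hb).1
    have hM2 : 2 ^ (l + 1) * q = 2 * (2 ^ l * q) := by rw [pow_succ]; ring
    have hM1 : 0 < 2 ^ l * q := Nat.mul_pos hpow hq
    rcases hfar with hfar | hfar
    · obtain ⟨y, hy1, hy2, hy3, hy4⟩ := exists_rep (2 ^ (l + 1)) q (by positivity) hq hcop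
        b c' (b - 2 * (2 ^ l * q))
      rw [hM2] at hy2
      have hty : t < y := by omega
      have hyb : y < b := by omega
      have htb : t % 2 ^ (l + 1) ≠ y % 2 ^ (l + 1) := by
        rw [hy3]; exact fun e => hopp b hb e.symm
      have htl : t % 2 ^ l = y % 2 ^ l := by
        rw [mod_of_mod_pow 2 (Nat.le_succ l) hy3]; exact hl t htT b hbT
      have h5 := h.P l y b t (by have := hN b hbT; omega) (hN b hbT) (hN t htT) hyb hy3 htl htb
      have h6 : τ (y / 2 ^ l % 2) = -1 := by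
        rw [digit_eq_of_mod 2 l y b hy3]; exact hup b hb
      rw [h6] at h5
      refine ⟨t, htT, b, hbT, y, hty, hyb, mod_of_mod_pow 2 hkl htl.symm, hy4, ?_⟩
      rw [D2_swap13]
      linarith
    · obtain ⟨y, hy1, hy2, hy3, hy4⟩ := exists_rep (2 ^ (l + 1)) q (by positivity) hq hcop
        b c' (b + 1)
      rw [hM2] at hy2
      have hby : b < y := by omega
      have hyt : y < t := by omega
      have htb : t % 2 ^ (l + 1) ≠ b % 2 ^ (l + 1) := fun e => hopp b hb e.symm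
      have htl : t % 2 ^ l = b % 2 ^ l := hl t htT b hbT
      have h5 := h.P l b y t (hN b hbT) (by have := hN t htT; omega) (hN t htT) hby hy3.symm htl htb
      rw [hup b hb] at h5
      refine ⟨b, hbT, t, htT, y, hby, hyt, mod_of_mod_pow 2 (by omega : k ≤ l + 1) hy3, hy4, ?_⟩
      rw [D2_swap23]
      linarith

/-- The point `y` lies in the interior of the positively oriented triangle `a b c`. -/
structure InTri (g : ℕ → ℝ) (a b c y : ℕ) : Prop where
  o : 0 < D2 g a b c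
  o1 : 0 < D2 g y b c
  o2 : 0 < D2 g a y c
  o3 : 0 < D2 g a b y

theorem planar_low {N : ℕ} {g τ : ℕ → ℝ} (h : Horton N g τ) {q : ℕ} (hq : 0 < q)
    (hodd : Nat.Coprime 2 q) (c' l w : ℕ) (T : Finset ℕ) (hT : 4 ≤ T.card) (hN : ∀ x ∈ T, x < N)
    (hwN : w < N)
    (hk : ∀ x ∈ T, ∀ y ∈ T, x % 2 ^ (l + 1) = y % 2 ^ (l + 1))
    (hqT : ∀ x ∈ T, ∀ y ∈ T, x % q = y % q)
    (hlow : ∀ x ∈ T, τ (x / 2 ^ l % 2) = 1)
    (hw : ∀ x ∈ T, w % 2 ^ l = x % 2 ^ l ∧ w % 2 ^ (l + 1) ≠ x % 2 ^ (l + 1)) :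
    ∃ a ∈ T, ∃ b ∈ T, ∃ y < N, y % q = c' % q ∧ InTri g a b w y := by
  obtain ⟨s, hs, s', hs', y, hsy, hys', hy1, hy2, hy3⟩ := cup h hq hodd c' (l + 1) T hT hN hk hqT
  have hyN : y < N := by have := hN s' hs'; omega
  have hyd : τ (y / 2 ^ l % 2) = 1 := by
    rw [digit_eq_of_mod 2 l y s hy1]; exact hlow s hs
  obtain ⟨hw1, hw2⟩ := hw s hs
  have hyl : y % 2 ^ l = s % 2 ^ l := mod_of_mod_pow 2 (Nat.le_succ l) hy1
  have e1 := h.P l s s' w (hN s hs) (hN s' hs') hwN (by omega) (hk s hs s' hs') hw1 hw2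
  have e2 := h.P l s y w (hN s hs) hyN hwN hsy hy1.symm hw1 hw2
  have e3 := h.P l y s' w hyN (hN s' hs') hwN hys' (by rw [hy1]; exact hk s hs s' hs')
    (by rw [hw1, hyl]) (by rw [hy1]; exact hw2)
  rw [hlow s hs, one_mul] at e1 e2
  rw [hyd, one_mul] at e3
  exact ⟨s, hs, s', hs', y, hyN, hy2, ⟨e1, e3, e2, hy3⟩⟩

/-- Planar lemma: seven points in one residue class mod an odd `q` contain a triangle whose
interior contains a point of any prescribed residue class mod `q`. -/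
theorem planar {N : ℕ} {g τ : ℕ → ℝ} (h : Horton N g τ) {q : ℕ} (hq : 0 < q)
    (hodd : Nat.Coprime 2 q) (c' : ℕ) (U : Finset ℕ) (hU : 7 ≤ U.card) (hN : ∀ x ∈ U, x < N)
    (hqU : ∀ x ∈ U, ∀ y ∈ U, x % q = y % q) :
    ∃ a ∈ U, ∃ b ∈ U, ∃ c ∈ U, ∃ y < N, y % q = c' % q ∧ InTri g a b c y := by
  classical
  obtain ⟨l, -, hl, x0, hx0, y0, hy0, hxy0⟩ := exists_split 2 le_rfl U (by omega) 0
    (by intro x _ y _; simp [Nat.mod_one])
  set Ul := U.filter (fun x => τ (x / 2 ^ l % 2) = 1) with hUl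
  set Uu := U.filter (fun x => ¬ τ (x / 2 ^ l % 2) = 1) with hUu
  have hsum : Ul.card + Uu.card = U.card := Finset.card_filter_add_card_filter_not _
  have hup : ∀ x ∈ Uu, τ (x / 2 ^ l % 2) = -1 := by
    intro x hx
    rcases h.τ_cases (x / 2 ^ l) with h1 | h1
    · exact absurd h1 (Finset.mem_filter.1 hx).2
    · exact h1
  have hlow : ∀ x ∈ Ul, τ (x / 2 ^ l % 2) = 1 := fun x hx => (Finset.mem_filter.1 hx).2
  have hUlU : ∀ x ∈ Ul, x ∈ U := fun x hx => (Finset.mem_filter.1 hx).1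
  have hUuU : ∀ x ∈ Uu, x ∈ U := fun x hx => (Finset.mem_filter.1 hx).1
  have hd : x0 / 2 ^ l % 2 ≠ y0 / 2 ^ l % 2 := fun hd =>
      hxy0 ((mod_pow_succ_iff 2 l x0 y0 (hl x0 hx0 y0 hy0)).2 hd)
  have hlu : ∀ x ∈ Ul, ∀ y ∈ Uu, x % 2 ^ (l + 1) ≠ y % 2 ^ (l + 1) := by
    intro x hx y hy heq
    have h1 := digit_eq_of_mod 2 l x y heq
    have h2 := hup y hy
    rw [← h1, hlow x hx] at h2
    norm_num at h2
  have hll : ∀ x ∈ Ul, ∀ y ∈ Ul, x % 2 ^ (l + 1) = y % 2 ^ (l + 1) := fun x hx y hy =>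
    (mod_pow_succ_iff 2 l x y (hl x (hUlU x hx) y (hUlU y hy))).2
      (h.dig_eq ((hlow x hx).trans (hlow y hy).symm))
  have huu : ∀ x ∈ Uu, ∀ y ∈ Uu, x % 2 ^ (l + 1) = y % 2 ^ (l + 1) := fun x hx y hy =>
    (mod_pow_succ_iff 2 l x y (hl x (hUuU x hx) y (hUuU y hy))).2
      (h.dig_eq ((hup x hx).trans (hup y hy).symm))
  have hUlne : Ul.Nonempty := by
    rcases h.τ_cases (x0 / 2 ^ l) with h1 | h1
    · exact ⟨x0, Finset.mem_filter.2 ⟨hx0, h1⟩⟩
    · rcases h.τ_cases (y0 / 2 ^ l) with h2 | h2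
      · exact ⟨y0, Finset.mem_filter.2 ⟨hy0, h2⟩⟩
      · exact absurd (h.dig_eq (h1.trans h2.symm)) hd
  have hUune : Uu.Nonempty := by
    rcases h.τ_cases (x0 / 2 ^ l) with h1 | h1
    · rcases h.τ_cases (y0 / 2 ^ l) with h2 | h2
      · exact absurd (h.dig_eq (h1.trans h2.symm)) hd
      · exact ⟨y0, Finset.mem_filter.2 ⟨hy0, by rw [h2]; norm_num⟩⟩
    · exact ⟨x0, Finset.mem_filter.2 ⟨hx0, by rw [h1]; norm_num⟩⟩
  by_cases hcase : 4 ≤ Ul.card
  · obtain ⟨w, hw⟩ := hUune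
    obtain ⟨a, ha, b, hb, y, hy, hyq, hin⟩ := planar_low h hq hodd c' l w Ul hcase
      (fun x hx => hN x (hUlU x hx)) (hN w (hUuU w hw)) hll
      (fun x hx y hy => hqU x (hUlU x hx) y (hUlU y hy)) hlow
      (fun x hx => ⟨hl w (hUuU w hw) x (hUlU x hx), fun e => hlu x hx w hw e.symm⟩)
    exact ⟨a, hUlU a ha, b, hUlU b hb, w, hUuU w hw, y, hy, hyq, hin⟩
  · have hcase' : 4 ≤ Uu.card := by omega
    obtain ⟨w, hw⟩ := hUlne
    obtain ⟨a, ha, b, hb, y, hy, hyq, hin⟩ := planar_low h.neg hq hodd c' l w Uu hcase'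
      (fun x hx => hN x (hUuU x hx)) (hN w (hUlU w hw)) huu
      (fun x hx y hy => hqU x (hUuU x hx) y (hUuU y hy))
      (fun x hx => by rw [hup x hx]; norm_num)
      (fun x hx => ⟨hl w (hUlU w hw) x (hUuU x hx), fun e => hlu w hw x hx e⟩)
    refine ⟨b, hUuU b hb, a, hUuU a ha, w, hUlU w hw, y, hy, hyq, ?_⟩
    obtain ⟨o, o1, o2, o3⟩ := hin
    rw [D2_neg] at o o1 o2 o3
    refine ⟨?_, ?_, ?_, ?_⟩
    · rw [D2_swap12]; exact o
    · rw [D2_swap12]; exact o2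
    · rw [D2_swap12]; exact o1
    · rw [D2_swap12]; exact o3

end Pool.Agent.MPcc1856
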