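import Pool.Agent.MPcc1856.Solid

set_option autoImplicit false

/-!
Existence of the binary and ternary structures.
-/

namespace Pool.Agent.MPcc1856

open Filter Topology

theorem pos_of_leading (J r : ℕ) (A : ℕ → ℝ) (hr : r < J) (h0 : ∀ j < r, A j = 0)
    (hA : 0 < A r) : ∀ᶠ δ in 𝓝[>] (0 : ℝ), 0 < ∑ j ∈ Finset.range J, A j * δ ^ j := by
  have hfac : ∀ δ : ℝ, ∑ j ∈ Finset.range J, A j * δ ^ j =
      δ ^ r * ∑ j ∈ Finset.range J, A j * δ ^ (j - r) := by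
    intro δ
    rw [Finset.mul_sum]
    apply Finset.sum_congr rfl
    intro j _
    rcases lt_or_ge j r with h | h
    · rw [h0 j h]; ring
    · rw [mul_left_comm, ← pow_add, Nat.add_sub_cancel' h]
  have hcont : Continuous (fun δ : ℝ => ∑ j ∈ Finset.range J, A j * δ ^ (j - r)) := by
    fun_prop
  have hval : ∑ j ∈ Finset.range J, A j * (0 : ℝ) ^ (j - r) = A r := by
    rw [Finset.sum_eq_single r]
    · simp
    · intro j _ hjr
      rcases lt_or_gt_of_ne hjr with h | h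
      · rw [h0 j h]; ring
      · rw [zero_pow (by omega), mul_zero]
    · intro h
      exact absurd (Finset.mem_range.2 hr) h
  have h1 : ∀ᶠ δ in 𝓝[>] (0 : ℝ), 0 < ∑ j ∈ Finset.range J, A j * δ ^ (j - r) := by
    have h2 : Tendsto (fun δ : ℝ => ∑ j ∈ Finset.range J, A j * δ ^ (j - r)) (𝓝 0)
        (𝓝 (∑ j ∈ Finset.range J, A j * (0 : ℝ) ^ (j - r))) := hcont.tendsto 0
    rw [hval] at h2
    exact (h2.mono_left nhdsWithin_le_nhds).eventually (lt_mem_nhds hA)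
  filter_upwards [h1, self_mem_nhdsWithin] with δ h2 h3
  rw [hfac]
  exact mul_pos (pow_pos h3 r) h2

/-- The weighted digit sum. -/
noncomputable def dsum (b J : ℕ) (δ : ℝ) (i : ℕ) : ℝ :=
  ∑ j ∈ Finset.range J, ((i / b ^ j % b : ℕ) : ℝ) * δ ^ j

theorem digit_lt_eq (b : ℕ) {j r u v : ℕ} (hj : j < r) (h : u % b ^ r = v % b ^ r) :
    u / b ^ j % b = v / b ^ j % b :=
  digit_eq_of_mod b j u v (mod_of_mod_pow b (by omega) h)

theorem level_lt {b N l u w : ℕ} (hb : 2 ≤ b) (hu : u < N) (hw : w < N)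
    (h1 : w % b ^ l = u % b ^ l) (h2 : w % b ^ (l + 1) ≠ u % b ^ (l + 1)) : l < N := by
  by_contra hcon
  have h3 : N < b ^ l := lt_of_le_of_lt (not_lt.1 hcon) (Nat.lt_pow_self (by omega))
  rw [Nat.mod_eq_of_lt (hw.trans h3), Nat.mod_eq_of_lt (hu.trans h3)] at h1
  exact h2 (by rw [h1])

theorem D2_dsum (b J : ℕ) (δ : ℝ) (u v w : ℕ) : D2 (dsum b J δ) u v w =
    ∑ j ∈ Finset.range J, (((v : ℝ) - u) * (((w / b ^ j % b : ℕ) : ℝ) - ((u / b ^ j % b : ℕ) : ℝ)) -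
      ((w : ℝ) - u) * (((v / b ^ j % b : ℕ) : ℝ) - ((u / b ^ j % b : ℕ) : ℝ))) * δ ^ j := by
  unfold D2 dsum
  rw [← Finset.sum_sub_distrib, ← Finset.sum_sub_distrib, Finset.mul_sum, Finset.mul_sum,
    ← Finset.sum_sub_distrib]
  apply Finset.sum_congr rfl
  intro j _
  ring

/-- The sign attached to a binary digit. -/
def tau (x : ℕ) : ℝ := if x = 0 then 1 else -1

theorem exists_horton (N : ℕ) : ∃ g : ℕ → ℝ, Horton N g tau := by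
  have key : ∀ᶠ δ in 𝓝[>] (0 : ℝ), ∀ l u v w : Fin N, u < v →
      (u : ℕ) % 2 ^ ((l : ℕ) + 1) = v % 2 ^ ((l : ℕ) + 1) → (w : ℕ) % 2 ^ (l : ℕ) = u % 2 ^ (l : ℕ) →
      (w : ℕ) % 2 ^ ((l : ℕ) + 1) ≠ u % 2 ^ ((l : ℕ) + 1) →
      0 < tau ((u : ℕ) / 2 ^ (l : ℕ) % 2) * D2 (dsum 2 N δ) u v w := by
    rw [eventually_all]; intro l
    rw [eventually_all]; intro u
    rw [eventually_all]; intro v
    rw [eventually_all]; intro w
    by_cases hc : u < v ∧ (u : ℕ) % 2 ^ ((l : ℕ) + 1) = v % 2 ^ ((l : ℕ) + 1) ∧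
        (w : ℕ) % 2 ^ (l : ℕ) = u % 2 ^ (l : ℕ) ∧
        (w : ℕ) % 2 ^ ((l : ℕ) + 1) ≠ u % 2 ^ ((l : ℕ) + 1)
    swap
    · filter_upwards with δ h1 h2 h3 h4
      exact absurd ⟨h1, h2, h3, h4⟩ hc
    obtain ⟨h1, h2, h3, h4⟩ := hc
    have huv : ((u : ℕ) : ℝ) < ((v : ℕ) : ℝ) := by exact_mod_cast h1
    have hd := digit_eq_of_mod 2 l u v h2
    have hd' : ¬ ((w : ℕ) / 2 ^ (l : ℕ) % 2 = (u : ℕ) / 2 ^ (l : ℕ) % 2) := fun h =>
      h4 ((mod_pow_succ_iff 2 l w u h3).2 h)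
    have := pos_of_leading N l (fun j => tau ((u : ℕ) / 2 ^ (l : ℕ) % 2) *
      ((((v : ℕ) : ℝ) - (u : ℕ)) * ((((w : ℕ) / 2 ^ j % 2 : ℕ) : ℝ) - (((u : ℕ) / 2 ^ j % 2 : ℕ) : ℝ)) -
      (((w : ℕ) : ℝ) - (u : ℕ)) * ((((v : ℕ) / 2 ^ j % 2 : ℕ) : ℝ) - (((u : ℕ) / 2 ^ j % 2 : ℕ) : ℝ))))
      l.2 (by
        intro j hj
        have e1 := digit_lt_eq 2 hj h3
        have e2 := digit_lt_eq 2 (show j < (l : ℕ) + 1 by omega) h2
        simp only [e1, ← e2]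
        ring) (by
        simp only [← hd]
        rcases Nat.mod_two_eq_zero_or_one ((u : ℕ) / 2 ^ (l : ℕ)) with h5 | h5
        · have h6 : (w : ℕ) / 2 ^ (l : ℕ) % 2 = 1 := by omega
          rw [h5, h6]
          simp only [tau, if_true]
          push_cast
          linarith
        · have h6 : (w : ℕ) / 2 ^ (l : ℕ) % 2 = 0 := by omega
          rw [h5, h6]
          simp only [tau, one_ne_zero, if_false]
          push_cast
          linarith)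
    filter_upwards [this] with δ hδ _ _ _ _
    rw [D2_dsum, Finset.mul_sum]
    simpa only [mul_assoc] using hδ
  obtain ⟨δ, hδ⟩ := key.exists
  refine ⟨dsum 2 N δ, Or.inl ⟨by simp [tau], by simp [tau]⟩, ?_⟩
  intro l u v w hu hv hw huv h1 h2 h3
  have hl : l < N := level_lt le_rfl hu hw h2 h3
  exact hδ ⟨l, hl⟩ ⟨u, hu⟩ ⟨v, hv⟩ ⟨w, hw⟩ huv h1 h2 h3

theorem D3_dsum (g : ℕ → ℝ) (b J : ℕ) (δ : ℝ) (p q r s : ℕ) : D3 g (dsum b J δ) p q r s =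
    ∑ j ∈ Finset.range J, (D2 g p q r * ((s / b ^ j % b : ℕ) : ℝ) -
      D2 g s q r * ((p / b ^ j % b : ℕ) : ℝ) - D2 g p s r * ((q / b ^ j % b : ℕ) : ℝ) -
      D2 g p q s * ((r / b ^ j % b : ℕ) : ℝ)) * δ ^ j := by
  unfold D3 dsum
  rw [Finset.mul_sum, Finset.mul_sum, Finset.mul_sum, Finset.mul_sum, ← Finset.sum_sub_distrib,
    ← Finset.sum_sub_distrib, ← Finset.sum_sub_distrib]
  apply Finset.sum_congr rfl
  intro j _
  ring

theorem exists_horton3 (N : ℕ) (g : ℕ → ℝ) :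
    ∃ h : ℕ → ℝ, Horton3 N g h (fun x => (x : ℤ)) := by
  have key : ∀ᶠ δ in 𝓝[>] (0 : ℝ), ∀ r a b c d : Fin N,
      (a : ℕ) % 3 ^ ((r : ℕ) + 1) = b % 3 ^ ((r : ℕ) + 1) →
      (a : ℕ) % 3 ^ ((r : ℕ) + 1) = c % 3 ^ ((r : ℕ) + 1) →
      (d : ℕ) % 3 ^ (r : ℕ) = a % 3 ^ (r : ℕ) → 0 < D2 g a b c →
      (((a : ℕ) / 3 ^ (r : ℕ) % 3 < (d : ℕ) / 3 ^ (r : ℕ) % 3 → 0 < D3 g (dsum 3 N δ) a b c d) ∧
      ((d : ℕ) / 3 ^ (r : ℕ) % 3 < (a : ℕ) / 3 ^ (r : ℕ) % 3 →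
        D3 g (dsum 3 N δ) a b c d < 0)) := by
    rw [eventually_all]; intro r
    rw [eventually_all]; intro a
    rw [eventually_all]; intro b
    rw [eventually_all]; intro c
    rw [eventually_all]; intro d
    by_cases hc : (a : ℕ) % 3 ^ ((r : ℕ) + 1) = b % 3 ^ ((r : ℕ) + 1) ∧
      (a : ℕ) % 3 ^ ((r : ℕ) + 1) = c % 3 ^ ((r : ℕ) + 1) ∧
      (d : ℕ) % 3 ^ (r : ℕ) = a % 3 ^ (r : ℕ) ∧ 0 < D2 g a b c
    swap
    · filter_upwards with δ h1 h2 h3 h4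
      exact absurd ⟨h1, h2, h3, h4⟩ hc
    obtain ⟨h1, h2, h3, h4⟩ := hc
    have hdb := digit_eq_of_mod 3 r a b h1
    have hdc := digit_eq_of_mod 3 r a c h2
    have hz : ∀ j < (r : ℕ), D2 g a b c * (((d : ℕ) / 3 ^ j % 3 : ℕ) : ℝ) -
      D2 g d b c * (((a : ℕ) / 3 ^ j % 3 : ℕ) : ℝ) - D2 g a d c * (((b : ℕ) / 3 ^ j % 3 : ℕ) : ℝ) -
      D2 g a b d * (((c : ℕ) / 3 ^ j % 3 : ℕ) : ℝ) = 0 := by
      intro j hj
      have e1 := digit_lt_eq 3 hj h3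
      have e2 := digit_lt_eq 3 (show j < (r : ℕ) + 1 by omega) h1
      have e3 := digit_lt_eq 3 (show j < (r : ℕ) + 1 by omega) h2
      rw [e1, ← e2, ← e3, D2_sum g a b c d]
      ring
    have hlead : D2 g a b c * (((d : ℕ) / 3 ^ (r : ℕ) % 3 : ℕ) : ℝ) -
      D2 g d b c * (((a : ℕ) / 3 ^ (r : ℕ) % 3 : ℕ) : ℝ) -
      D2 g a d c * (((b : ℕ) / 3 ^ (r : ℕ) % 3 : ℕ) : ℝ) -
      D2 g a b d * (((c : ℕ) / 3 ^ (r : ℕ) % 3 : ℕ) : ℝ) =
      D2 g a b c * ((((d : ℕ) / 3 ^ (r : ℕ) % 3 : ℕ) : ℝ) - (((a : ℕ) / 3 ^ (r : ℕ) % 3 : ℕ) : ℝ)) := by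
      rw [← hdb, ← hdc]
      have := D2_sum g a b c d
      linear_combination (-(((a : ℕ) / 3 ^ (r : ℕ) % 3 : ℕ) : ℝ)) * (-this)
    rcases lt_trichotomy ((a : ℕ) / 3 ^ (r : ℕ) % 3) ((d : ℕ) / 3 ^ (r : ℕ) % 3) with h5 | h5 | h5
    · have := pos_of_leading N r (fun j => D2 g a b c * (((d : ℕ) / 3 ^ j % 3 : ℕ) : ℝ) -
        D2 g d b c * (((a : ℕ) / 3 ^ j % 3 : ℕ) : ℝ) - D2 g a d c * (((b : ℕ) / 3 ^ j % 3 : ℕ) : ℝ) -
        D2 g a b d * (((c : ℕ) / 3 ^ j % 3 : ℕ) : ℝ)) r.2 hz (by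
          rw [hlead]
          apply mul_pos h4
          have : (((a : ℕ) / 3 ^ (r : ℕ) % 3 : ℕ) : ℝ) < (((d : ℕ) / 3 ^ (r : ℕ) % 3 : ℕ) : ℝ) := by
            exact_mod_cast h5
          linarith)
      filter_upwards [this] with δ hδ _ _ _ _
      refine ⟨fun _ => ?_, fun h6 => absurd h6 (by omega)⟩
      rw [D3_dsum]
      exact hδ
    · filter_upwards with δ _ _ _ _
      exact ⟨fun h6 => absurd h6 (by omega), fun h6 => absurd h6 (by omega)⟩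
    · have := pos_of_leading N r (fun j => -(D2 g a b c * (((d : ℕ) / 3 ^ j % 3 : ℕ) : ℝ) -
        D2 g d b c * (((a : ℕ) / 3 ^ j % 3 : ℕ) : ℝ) - D2 g a d c * (((b : ℕ) / 3 ^ j % 3 : ℕ) : ℝ) -
        D2 g a b d * (((c : ℕ) / 3 ^ j % 3 : ℕ) : ℝ))) r.2
        (fun j hj => by rw [hz j hj, neg_zero]) (by
          rw [hlead]
          have h7 : (((d : ℕ) / 3 ^ (r : ℕ) % 3 : ℕ) : ℝ) < (((a : ℕ) / 3 ^ (r : ℕ) % 3 : ℕ) : ℝ) := by
            exact_mod_cast h5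
          nlinarith)
      filter_upwards [this] with δ hδ _ _ _ _
      refine ⟨fun h6 => absurd h6 (by omega), fun _ => ?_⟩
      rw [D3_dsum]
      simp only [neg_mul, Finset.sum_neg_distrib] at hδ
      linarith
  obtain ⟨δ, hδ⟩ := key.exists
  refine ⟨dsum 3 N δ, fun x _ y _ e => by exact_mod_cast e, ?_, ?_⟩
  · intro r a b c d ha hb hc hd h1 h2 h3 h4 h5
    have h5' : a / 3 ^ r % 3 < d / 3 ^ r % 3 := by exact_mod_cast h5
    have hr : r < N := by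
      apply level_lt (b := 3) (by norm_num) ha hd h3
      intro h6
      rw [digit_eq_of_mod 3 r d a h6] at h5'
      exact lt_irrefl _ h5'
    exact (hδ ⟨r, hr⟩ ⟨a, ha⟩ ⟨b, hb⟩ ⟨c, hc⟩ ⟨d, hd⟩ h1 h2 h3 h4).1 h5'
  · intro r a b c d ha hb hc hd h1 h2 h3 h4 h5
    have h5' : d / 3 ^ r % 3 < a / 3 ^ r % 3 := by exact_mod_cast h5
    have hr : r < N := by
      apply level_lt (b := 3) (by norm_num) ha hd h3
      intro h6
      rw [digit_eq_of_mod 3 r d a h6] at h5'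
      exact lt_irrefl _ h5'
    exact (hδ ⟨r, hr⟩ ⟨a, ha⟩ ⟨b, hb⟩ ⟨c, hc⟩ ⟨d, hd⟩ h1 h2 h3 h4).2 h5'

/-- The planar and solid structures together: every fifty-five indices contain a tetrahedron with
an index in its interior. -/
theorem exists_points (N : ℕ) : ∃ g h : ℕ → ℝ, ∀ S : Finset ℕ, 55 ≤ S.card → (∀ x ∈ S, x < N) →
    ∃ a ∈ S, ∃ b ∈ S, ∃ c ∈ S, ∃ d ∈ S, ∃ y < N, InTet g h a b c d y := by
  obtain ⟨g, hg⟩ := exists_horton N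
  obtain ⟨h, H⟩ := exists_horton3 N g
  exact ⟨g, h, fun S hS hN => tet hg H S hS hN⟩

end Pool.Agent.MPcc1856
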