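import Pool.Agent.MPcc1856.Exist

set_option autoImplicit false

/-!
Perturbation to general position, and the counting argument.
-/

namespace Pool.Agent.MPcc1856

open Filter Topology

/-- Planar orientation for general coordinate functions. -/
def W2 (X Y : ℕ → ℝ) (a b c : ℕ) : ℝ :=
  (X b - X a) * (Y c - Y a) - (X c - X a) * (Y b - Y a)

/-- Solid orientation for general coordinate functions. -/
def W3 (X Y Z : ℕ → ℝ) (a b c d : ℕ) : ℝ :=
  W2 X Y a b c * Z d - W2 X Y d b c * Z a - W2 X Y a d c * Z b - W2 X Y a b d * Z c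

theorem W3_expand (X Y Z X' Y' Z' : ℕ → ℝ) (e : ℝ) (a b c d : ℕ) :
    W3 (fun i => X i + e * X' i) (fun i => Y i + e * Y' i) (fun i => Z i + e * Z' i) a b c d =
      W3 X Y Z a b c d +
      (W3 X' Y Z a b c d + W3 X Y' Z a b c d + W3 X Y Z' a b c d) * e +
      (W3 X' Y' Z a b c d + W3 X' Y Z' a b c d + W3 X Y' Z' a b c d) * e ^ 2 +
      W3 X' Y' Z' a b c d * e ^ 3 := by
  unfold W3 W2
  ring

theorem W3_moment (a b c d : ℕ) (hab : a ≠ b) (hac : a ≠ c) (had : a ≠ d) (hbc : b ≠ c)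
    (hbd : b ≠ d) (hcd : c ≠ d) :
    W3 (fun i => (i : ℝ)) (fun i => (i : ℝ) ^ 2) (fun i => (i : ℝ) ^ 3) a b c d ≠ 0 := by
  have h : W3 (fun i => (i : ℝ)) (fun i => (i : ℝ) ^ 2) (fun i => (i : ℝ) ^ 3) a b c d =
      ((b : ℝ) - a) * ((c : ℝ) - a) * ((d : ℝ) - a) * ((c : ℝ) - b) * ((d : ℝ) - b) *
        ((d : ℝ) - c) := by
    unfold W3 W2
    ring
  rw [h]
  have e : ∀ u v : ℕ, u ≠ v → (v : ℝ) - u ≠ 0 := fun u v huv =>
    sub_ne_zero.2 (fun h => huv (by exact_mod_cast h.symm))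
  exact mul_ne_zero (mul_ne_zero (mul_ne_zero (mul_ne_zero (mul_ne_zero (e _ _ hab) (e _ _ hac))
    (e _ _ had)) (e _ _ hbc)) (e _ _ hbd)) (e _ _ hcd)

theorem cubic_ne (c0 c1 c2 c3 : ℝ) (h : c3 ≠ 0) :
    ∀ᶠ e in 𝓝[>] (0 : ℝ), c0 + c1 * e + c2 * e ^ 2 + c3 * e ^ 3 ≠ 0 := by
  let p : Polynomial ℝ := Polynomial.C c0 + Polynomial.C c1 * Polynomial.X +
    Polynomial.C c2 * Polynomial.X ^ 2 + Polynomial.C c3 * Polynomial.X ^ 3
  have hp : p ≠ 0 := by
    intro h0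
    apply h
    have : p.coeff 3 = c3 := by
      simp [p]
    rw [← this, h0, Polynomial.coeff_zero]
  have hfin : Set.Finite {x : ℝ | x ∈ p.roots.toFinset ∧ x ≠ 0} :=
    Set.Finite.subset (Finset.finite_toSet p.roots.toFinset) (fun x hx => hx.1)
  have hmem : {x : ℝ | x ∈ p.roots.toFinset ∧ x ≠ 0}ᶜ ∈ 𝓝 (0 : ℝ) :=
    hfin.isClosed.isOpen_compl.mem_nhds (fun hx => hx.2 rfl)
  filter_upwards [nhdsWithin_le_nhds hmem, self_mem_nhdsWithin] with e h1 h2 h3
  apply h1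
  refine ⟨?_, ne_of_gt h2⟩
  rw [Multiset.mem_toFinset, Polynomial.mem_roots hp, Polynomial.IsRoot.def]
  simp only [p, Polynomial.eval_add, Polynomial.eval_mul, Polynomial.eval_C, Polynomial.eval_X,
    Polynomial.eval_pow]
  exact h3

/-- The point with the given coordinates. -/
noncomputable def pt (X Y Z : ℕ → ℝ) (i : ℕ) : EuclideanSpace ℝ (Fin 3) := !₂[X i, Y i, Z i]

theorem last_zero (X Y Z : ℕ → ℝ) (a b c d : ℕ) (wa wb wc wd : ℝ)
    (h : wa + wb + wc + wd = 0) (hx : wa * X a + wb * X b + wc * X c + wd * X d = 0)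
    (hy : wa * Y a + wb * Y b + wc * Y c + wd * Y d = 0)
    (hz : wa * Z a + wb * Z b + wc * Z c + wd * Z d = 0) : wd * W3 X Y Z a b c d = 0 := by
  unfold W3 W2
  linear_combination (-(X b * Y c - X c * Y b) * Z a + (X a * Y c - X c * Y a) * Z b -
    (X a * Y b - X b * Y a) * Z c) * h + (-(Y b - Y c) * Z a + (Y a - Y c) * Z b -
    (Y a - Y b) * Z c) * hx + (-(X c - X b) * Z a + (X c - X a) * Z b - (X b - X a) * Z c) * hy +
    ((X b - X a) * (Y c - Y a) - (X c - X a) * (Y b - Y a)) * hz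

theorem aff4 (X Y Z : ℕ → ℝ) (l : Fin 4 → ℕ) (h : W3 X Y Z (l 0) (l 1) (l 2) (l 3) ≠ 0) :
    AffineIndependent ℝ (fun i => pt X Y Z (l i)) := by
  rw [affineIndependent_iff_of_fintype]
  intro w hw hs
  rw [Finset.weightedVSub_eq_linear_combination _ hw] at hs
  have e0 : ∑ i, w i * X (l i) = 0 := by
    have := congrArg (fun v : EuclideanSpace ℝ (Fin 3) => v 0) hs
    simpa [pt] using this
  have e1 : ∑ i, w i * Y (l i) = 0 := by
    have := congrArg (fun v : EuclideanSpace ℝ (Fin 3) => v 1) hs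
    simpa [pt] using this
  have e2 : ∑ i, w i * Z (l i) = 0 := by
    have := congrArg (fun v : EuclideanSpace ℝ (Fin 3) => v 2) hs
    simpa [pt] using this
  rw [Fin.sum_univ_four] at hw e0 e1 e2
  have d3 := last_zero X Y Z (l 0) (l 1) (l 2) (l 3) (w 0) (w 1) (w 2) (w 3) hw e0 e1 e2
  have d2 := last_zero X Y Z (l 0) (l 1) (l 3) (l 2) (w 0) (w 1) (w 3) (w 2)
    (by linarith) (by linarith) (by linarith) (by linarith)
  have d1 := last_zero X Y Z (l 0) (l 3) (l 2) (l 1) (w 0) (w 3) (w 2) (w 1)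
    (by linarith) (by linarith) (by linarith) (by linarith)
  have d0 := last_zero X Y Z (l 3) (l 1) (l 2) (l 0) (w 3) (w 1) (w 2) (w 0)
    (by linarith) (by linarith) (by linarith) (by linarith)
  have s2 : W3 X Y Z (l 0) (l 1) (l 3) (l 2) = - W3 X Y Z (l 0) (l 1) (l 2) (l 3) := by
    unfold W3 W2; ring
  have s1 : W3 X Y Z (l 0) (l 3) (l 2) (l 1) = - W3 X Y Z (l 0) (l 1) (l 2) (l 3) := by
    unfold W3 W2; ring
  have s0 : W3 X Y Z (l 3) (l 1) (l 2) (l 0) = - W3 X Y Z (l 0) (l 1) (l 2) (l 3) := by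
    unfold W3 W2; ring
  rw [s2] at d2
  rw [s1] at d1
  rw [s0] at d0
  intro i
  fin_cases i
  · exact (mul_eq_zero.1 d0).resolve_right (neg_ne_zero.2 h)
  · exact (mul_eq_zero.1 d1).resolve_right (neg_ne_zero.2 h)
  · exact (mul_eq_zero.1 d2).resolve_right (neg_ne_zero.2 h)
  · exact (mul_eq_zero.1 d3).resolve_right h

theorem hull_mem (X Y Z : ℕ → ℝ) (C : Set (EuclideanSpace ℝ (Fin 3))) (a b c d y : ℕ)
    (ha : pt X Y Z a ∈ C) (hb : pt X Y Z b ∈ C) (hc : pt X Y Z c ∈ C) (hd : pt X Y Z d ∈ C)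
    (o : 0 < W3 X Y Z a b c d) (o1 : 0 < W3 X Y Z y b c d) (o2 : 0 < W3 X Y Z a y c d)
    (o3 : 0 < W3 X Y Z a b y d) (o4 : 0 < W3 X Y Z a b c y) :
    pt X Y Z y ∈ convexHull ℝ C := by
  refine mem_convexHull_of_exists_fintype
    (w := ![W3 X Y Z y b c d / W3 X Y Z a b c d, W3 X Y Z a y c d / W3 X Y Z a b c d,
      W3 X Y Z a b y d / W3 X Y Z a b c d, W3 X Y Z a b c y / W3 X Y Z a b c d])
    (z := ![pt X Y Z a, pt X Y Z b, pt X Y Z c, pt X Y Z d]) ?_ ?_ ?_ ?_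
  · intro i
    fin_cases i
    · exact (div_pos o1 o).le
    · exact (div_pos o2 o).le
    · exact (div_pos o3 o).le
    · exact (div_pos o4 o).le
  · rw [Fin.sum_univ_four]
    simp only [Matrix.cons_val]
    rw [← add_div, ← add_div, ← add_div, div_eq_one_iff_eq o.ne']
    unfold W3 W2; ring
  · intro i
    fin_cases i
    · exact ha
    · exact hb
    · exact hc
    · exact hd
  · rw [Fin.sum_univ_four]
    simp only [Matrix.cons_val]
    have o' := o.ne'
    ext i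
    fin_cases i
    · simp only [pt, PiLp.add_apply, PiLp.smul_apply, smul_eq_mul, Fin.zero_eta, Matrix.cons_val]
      field_simp
      unfold W3 W2; ring
    · simp only [pt, PiLp.add_apply, PiLp.smul_apply, smul_eq_mul, Fin.mk_one, Matrix.cons_val]
      field_simp
      unfold W3 W2; ring
    · simp only [pt, PiLp.add_apply, PiLp.smul_apply, smul_eq_mul, Fin.reduceFinMk, Matrix.cons_val]
      field_simp
      unfold W3 W2; ring

/-- Coordinates of the perturbed doubled points. -/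
def cX (e : ℝ) : ℕ → ℝ := fun l => ((l / 2 : ℕ) : ℝ) + e * (l : ℝ)

/-- Coordinates of the perturbed doubled points. -/
def cY (g : ℕ → ℝ) (e : ℝ) : ℕ → ℝ := fun l => g (l / 2) + e * (l : ℝ) ^ 2

/-- Coordinates of the perturbed doubled points. -/
def cZ (h : ℕ → ℝ) (e : ℝ) : ℕ → ℝ := fun l => h (l / 2) + e * (l : ℝ) ^ 3

theorem W3_zero (g h : ℕ → ℝ) (a b c d : ℕ) :
    W3 (fun l => ((l / 2 : ℕ) : ℝ)) (fun l => g (l / 2)) (fun l => h (l / 2)) a b c d =
      D3 g h (a / 2) (b / 2) (c / 2) (d / 2) := rfl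

theorem W3_pos (g h : ℕ → ℝ) (a b c d : ℕ) (hpos : 0 < D3 g h (a / 2) (b / 2) (c / 2) (d / 2)) :
    ∀ᶠ e in 𝓝[>] (0 : ℝ), 0 < W3 (cX e) (cY g e) (cZ h e) a b c d := by
  have hc : Continuous (fun e : ℝ => W3 (cX e) (cY g e) (cZ h e) a b c d) := by
    unfold W3 W2 cX cY cZ
    fun_prop
  have h0 : W3 (cX 0) (cY g 0) (cZ h 0) a b c d = D3 g h (a / 2) (b / 2) (c / 2) (d / 2) := by
    rw [← W3_zero]
    unfold cX cY cZ
    simp only [zero_mul, add_zero]
  have h2 : Tendsto (fun e : ℝ => W3 (cX e) (cY g e) (cZ h e) a b c d) (𝓝 0)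
      (𝓝 (W3 (cX 0) (cY g 0) (cZ h 0) a b c d)) := hc.tendsto 0
  rw [h0] at h2
  exact (h2.mono_left nhdsWithin_le_nhds).eventually (lt_mem_nhds hpos)

theorem W3_ne (g h : ℕ → ℝ) (a b c d : ℕ) (hab : a ≠ b) (hac : a ≠ c) (had : a ≠ d)
    (hbc : b ≠ c) (hbd : b ≠ d) (hcd : c ≠ d) :
    ∀ᶠ e in 𝓝[>] (0 : ℝ), W3 (cX e) (cY g e) (cZ h e) a b c d ≠ 0 := by
  have h1 := cubic_ne (W3 (fun l => ((l / 2 : ℕ) : ℝ)) (fun l => g (l / 2)) (fun l => h (l / 2))
    a b c d)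
    (W3 (fun i => (i : ℝ)) (fun l => g (l / 2)) (fun l => h (l / 2)) a b c d +
      W3 (fun l => ((l / 2 : ℕ) : ℝ)) (fun i => (i : ℝ) ^ 2) (fun l => h (l / 2)) a b c d +
      W3 (fun l => ((l / 2 : ℕ) : ℝ)) (fun l => g (l / 2)) (fun i => (i : ℝ) ^ 3) a b c d)
    (W3 (fun i => (i : ℝ)) (fun i => (i : ℝ) ^ 2) (fun l => h (l / 2)) a b c d +
      W3 (fun i => (i : ℝ)) (fun l => g (l / 2)) (fun i => (i : ℝ) ^ 3) a b c d +
      W3 (fun l => ((l / 2 : ℕ) : ℝ)) (fun i => (i : ℝ) ^ 2) (fun i => (i : ℝ) ^ 3) a b c d)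
    _ (W3_moment a b c d hab hac had hbc hbd hcd)
  filter_upwards [h1] with e he
  rw [← W3_expand] at he
  exact he

/-- The doubled point set, abstractly: coordinates in general position for which the nested
structure survives. -/
theorem exists_coords (N : ℕ) : ∃ X Y Z : ℕ → ℝ, StrictMono X ∧
    (∀ a b c d : ℕ, a < 2 * N → b < 2 * N → c < 2 * N → d < 2 * N → a ≠ b → a ≠ c → a ≠ d →
      b ≠ c → b ≠ d → c ≠ d → W3 X Y Z a b c d ≠ 0) ∧
    ∀ F : Finset ℕ, 55 ≤ F.card → (∀ x ∈ F, x < 2 * N) → (∀ x ∈ F, ∀ y ∈ F, x % 2 = y % 2) →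
      ∃ a ∈ F, ∃ b ∈ F, ∃ c ∈ F, ∃ d ∈ F, ∃ y < 2 * N, y % 2 ≠ a % 2 ∧
        0 < W3 X Y Z a b c d ∧ 0 < W3 X Y Z y b c d ∧ 0 < W3 X Y Z a y c d ∧
        0 < W3 X Y Z a b y d ∧ 0 < W3 X Y Z a b c y := by
  obtain ⟨g, h, key⟩ := exists_points N
  have e1 : ∀ᶠ e in 𝓝[>] (0 : ℝ), ∀ a b c d : Fin (2 * N), a ≠ b → a ≠ c → a ≠ d →
      b ≠ c → b ≠ d → c ≠ d → W3 (cX e) (cY g e) (cZ h e) a b c d ≠ 0 := by
    rw [eventually_all]; intro a
    rw [eventually_all]; intro b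
    rw [eventually_all]; intro c
    rw [eventually_all]; intro d
    by_cases hc : a ≠ b ∧ a ≠ c ∧ a ≠ d ∧ b ≠ c ∧ b ≠ d ∧ c ≠ d
    · obtain ⟨h1, h2, h3, h4, h5, h6⟩ := hc
      filter_upwards [W3_ne g h a b c d (fun e => h1 (Fin.ext e)) (fun e => h2 (Fin.ext e))
        (fun e => h3 (Fin.ext e)) (fun e => h4 (Fin.ext e)) (fun e => h5 (Fin.ext e))
        (fun e => h6 (Fin.ext e))] with e he _ _ _ _ _ _
      exact he
    · filter_upwards with e h1 h2 h3 h4 h5 h6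
      exact absurd ⟨h1, h2, h3, h4, h5, h6⟩ hc
  have e2 : ∀ᶠ e in 𝓝[>] (0 : ℝ), ∀ a b c d : Fin (2 * N),
      0 < D3 g h ((a : ℕ) / 2) ((b : ℕ) / 2) ((c : ℕ) / 2) ((d : ℕ) / 2) →
      0 < W3 (cX e) (cY g e) (cZ h e) a b c d := by
    rw [eventually_all]; intro a
    rw [eventually_all]; intro b
    rw [eventually_all]; intro c
    rw [eventually_all]; intro d
    by_cases hc : 0 < D3 g h ((a : ℕ) / 2) ((b : ℕ) / 2) ((c : ℕ) / 2) ((d : ℕ) / 2)
    · filter_upwards [W3_pos g h a b c d hc] with e he _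
      exact he
    · filter_upwards with e h1
      exact absurd h1 hc
  obtain ⟨e, ⟨h1, h2⟩, h3⟩ := ((e1.and e2).and self_mem_nhdsWithin).exists
  refine ⟨cX e, cY g e, cZ h e, ?_, ?_, ?_⟩
  · intro u v huv
    unfold cX
    have h4 : ((u / 2 : ℕ) : ℝ) ≤ ((v / 2 : ℕ) : ℝ) := by
      exact_mod_cast Nat.div_le_div_right huv.le
    have h5 : (u : ℝ) < v := by exact_mod_cast huv
    have h6 : (0 : ℝ) < e := h3
    have := mul_lt_mul_of_pos_left h5 h6
    linarith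
  · intro a b c d ha hb hc hd h4 h5 h6 h7 h8 h9
    exact h1 ⟨a, ha⟩ ⟨b, hb⟩ ⟨c, hc⟩ ⟨d, hd⟩ (fun e => h4 (congrArg Fin.val e))
      (fun e => h5 (congrArg Fin.val e)) (fun e => h6 (congrArg Fin.val e))
      (fun e => h7 (congrArg Fin.val e)) (fun e => h8 (congrArg Fin.val e))
      (fun e => h9 (congrArg Fin.val e))
  · intro F hF hFN hpar
    have hinj : Set.InjOn (fun x => x / 2) (F : Set ℕ) := by
      intro x hx y hy hxy
      have := hpar x hx y hy
      simp only at hxy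
      omega
    obtain ⟨a, ha, b, hb, c, hc, d, hd, y, hy, ht⟩ := key (F.image (fun x => x / 2))
      (by rw [Finset.card_image_of_injOn hinj]; exact hF) (by
        intro x hx
        obtain ⟨z, hz, rfl⟩ := Finset.mem_image.1 hx
        have := hFN z hz
        omega)
    obtain ⟨a', ha', rfl⟩ := Finset.mem_image.1 ha
    obtain ⟨b', hb', rfl⟩ := Finset.mem_image.1 hb
    obtain ⟨c', hc', rfl⟩ := Finset.mem_image.1 hc
    obtain ⟨d', hd', rfl⟩ := Finset.mem_image.1 hd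
    have hy2 : (2 * y + (1 - a' % 2)) / 2 = y := by omega
    have hyN : 2 * y + (1 - a' % 2) < 2 * N := by omega
    refine ⟨a', ha', b', hb', c', hc', d', hd', 2 * y + (1 - a' % 2), hyN, by omega, ?_, ?_, ?_,
      ?_, ?_⟩
    · exact h2 ⟨a', hFN _ ha'⟩ ⟨b', hFN _ hb'⟩ ⟨c', hFN _ hc'⟩ ⟨d', hFN _ hd'⟩ ht.o
    · exact h2 ⟨_, hyN⟩ ⟨b', hFN _ hb'⟩ ⟨c', hFN _ hc'⟩ ⟨d', hFN _ hd'⟩
        (by simp only [hy2]; exact ht.o1)
    · exact h2 ⟨a', hFN _ ha'⟩ ⟨_, hyN⟩ ⟨c', hFN _ hc'⟩ ⟨d', hFN _ hd'⟩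
        (by simp only [hy2]; exact ht.o2)
    · exact h2 ⟨a', hFN _ ha'⟩ ⟨b', hFN _ hb'⟩ ⟨_, hyN⟩ ⟨d', hFN _ hd'⟩
        (by simp only [hy2]; exact ht.o3)
    · exact h2 ⟨a', hFN _ ha'⟩ ⟨b', hFN _ hb'⟩ ⟨c', hFN _ hc'⟩ ⟨_, hyN⟩
        (by simp only [hy2]; exact ht.o4)

theorem pt_inj (X Y Z : ℕ → ℝ) (hX : StrictMono X) : Function.Injective (pt X Y Z) := by
  intro u v huv
  have := congrArg (fun w : EuclideanSpace ℝ (Fin 3) => w 0) huv
  exact hX.injective (by simpa [pt] using this)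

/-- The main theorem: a two-coloured set in general position all of whose partitions into
monochromatic classes with disjoint hulls have more than a fixed proportion of classes. -/
theorem main (N : ℕ) : ∃ X : Finset (EuclideanSpace ℝ (Fin 3)), X.card = 2 * N ∧
    (∀ S : Finset (EuclideanSpace ℝ (Fin 3)), S ⊆ X → S.card = 4 →
        AffineIndependent ℝ (fun p : S => (p : EuclideanSpace ℝ (Fin 3)))) ∧
    ∃ c : EuclideanSpace ℝ (Fin 3) → Bool, ∀ (k : ℕ) (f : EuclideanSpace ℝ (Fin 3) → Fin k),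
      (∀ x ∈ X, ∀ y ∈ X, f x = f y → c x = c y) →
      (∀ i j : Fin k, i ≠ j → Disjoint (convexHull ℝ {x | x ∈ X ∧ f x = i})
                       (convexHull ℝ {x | x ∈ X ∧ f x = j})) → 2 * N ≤ 54 * k := by
  classical
  obtain ⟨X, Y, Z, hX, hgen, key⟩ := exists_coords N
  have hinj := pt_inj X Y Z hX
  refine ⟨(Finset.range (2 * N)).image (pt X Y Z), ?_, ?_, ?_⟩
  · rw [Finset.card_image_of_injective _ hinj, Finset.card_range]
  · intro S hS hS4
    have hmem : ∀ p : S, ∃ l < 2 * N, pt X Y Z l = p := by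
      intro p
      obtain ⟨l, hl, h⟩ := Finset.mem_image.1 (hS p.2)
      exact ⟨l, Finset.mem_range.1 hl, h⟩
    choose lab hlab hpt using hmem
    have hlinj : Function.Injective lab := by
      intro p q hpq
      apply Subtype.ext
      rw [← hpt p, ← hpt q, hpq]
    let eqv : S ≃ Fin 4 := S.equivFinOfCardEq hS4
    have hne : ∀ i j : Fin 4, i ≠ j → lab (eqv.symm i) ≠ lab (eqv.symm j) := fun i j hij h =>
      hij (eqv.symm.injective (hlinj h))
    have haff := aff4 X Y Z (fun i => lab (eqv.symm i))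
      (hgen _ _ _ _ (hlab _) (hlab _) (hlab _) (hlab _) (hne 0 1 (by decide))
        (hne 0 2 (by decide)) (hne 0 3 (by decide)) (hne 1 2 (by decide)) (hne 1 3 (by decide))
        (hne 2 3 (by decide)))
    have := haff.comp_embedding eqv.toEmbedding
    convert this using 1
    funext p
    simp [hpt]
  · refine ⟨fun x => decide (∃ l, pt X Y Z l = x ∧ l % 2 = 1), ?_⟩
    intro k f hmono hdisj
    have hcol : ∀ u v : ℕ, u < 2 * N → v < 2 * N → f (pt X Y Z u) = f (pt X Y Z v) →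
        u % 2 = v % 2 := by
      intro u v hu hv huv
      have h1 := hmono _ (Finset.mem_image_of_mem _ (Finset.mem_range.2 hu)) _
        (Finset.mem_image_of_mem _ (Finset.mem_range.2 hv)) huv
      have h2 : ∀ w : ℕ, (∃ l, pt X Y Z l = pt X Y Z w ∧ l % 2 = 1) ↔ w % 2 = 1 := by
        intro w
        constructor
        · rintro ⟨l, hl, hl2⟩
          rwa [← hinj hl]
        · intro hw
          exact ⟨w, rfl, hw⟩
      have h3 := decide_eq_decide.1 h1
      rw [h2, h2] at h3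
      omega
    by_contra hk
    obtain ⟨i, -, hi⟩ := Finset.exists_lt_card_fiber_of_mul_lt_card_of_maps_to
      (s := Finset.range (2 * N)) (t := (Finset.univ : Finset (Fin k)))
      (f := fun l => f (pt X Y Z l)) (n := 54) (fun _ _ => Finset.mem_univ _)
      (by rw [Finset.card_fin, Finset.card_range]; omega)
    obtain ⟨a, ha, b, hb, c, hc, d, hd, y, hy, hya, o, o1, o2, o3, o4⟩ :=
      key ((Finset.range (2 * N)).filter (fun l => f (pt X Y Z l) = i)) (by omega)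
        (fun x hx => Finset.mem_range.1 (Finset.mem_filter.1 hx).1)
        (fun u hu v hv => hcol u v (Finset.mem_range.1 (Finset.mem_filter.1 hu).1)
          (Finset.mem_range.1 (Finset.mem_filter.1 hv).1)
          ((Finset.mem_filter.1 hu).2.trans (Finset.mem_filter.1 hv).2.symm))
    have hin : ∀ l ∈ (Finset.range (2 * N)).filter (fun l => f (pt X Y Z l) = i),
        pt X Y Z l ∈ {x | x ∈ (Finset.range (2 * N)).image (pt X Y Z) ∧ f x = i} := by
      intro l hl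
      exact ⟨Finset.mem_image_of_mem _ (Finset.mem_filter.1 hl).1, (Finset.mem_filter.1 hl).2⟩
    have hhull := hull_mem X Y Z _ a b c d y (hin a ha) (hin b hb) (hin c hc) (hin d hd)
      o o1 o2 o3 o4
    have hne : i ≠ f (pt X Y Z y) := by
      intro h
      exact hya (hcol y a hy (Finset.mem_range.1 (Finset.mem_filter.1 ha).1)
        (h.symm.trans (Finset.mem_filter.1 ha).2.symm))
    have hself : pt X Y Z y ∈ convexHull ℝ
        {x | x ∈ (Finset.range (2 * N)).image (pt X Y Z) ∧ f x = f (pt X Y Z y)} :=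
      subset_convexHull ℝ _ ⟨Finset.mem_image_of_mem _ (Finset.mem_range.2 hy), rfl⟩
    exact Set.disjoint_left.1 (hdisj _ _ hne) hhull hself

end Pool.Agent.MPcc1856
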