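import Mathlib

set_option autoImplicit false

/-!
Planar Horton-type structure with binary digits, and empty-triangle obstructions lying in
prescribed residue classes to an odd modulus.
-/

namespace Pool.Agent.MPcc1856

/-- Orientation of the three points with abscissas `a b c` and ordinates given by `g`. -/
def D2 (g : ℕ → ℝ) (a b c : ℕ) : ℝ :=
  ((b : ℝ) - a) * (g c - g a) - ((c : ℝ) - a) * (g b - g a)

theorem D2_swap13 (g : ℕ → ℝ) (a b c : ℕ) : D2 g a b c = - D2 g c b a := by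
  unfold D2; ring

theorem D2_swap12 (g : ℕ → ℝ) (a b c : ℕ) : D2 g a b c = - D2 g b a c := by
  unfold D2; ring

theorem D2_swap23 (g : ℕ → ℝ) (a b c : ℕ) : D2 g a b c = - D2 g a c b := by
  unfold D2; ring

theorem D2_neg (g : ℕ → ℝ) (a b c : ℕ) : D2 (fun i => - g i) a b c = - D2 g a b c := by
  unfold D2; ring

theorem D2_sum (g : ℕ → ℝ) (a b c d : ℕ) :
    D2 g a b c = D2 g d b c + D2 g a d c + D2 g a b d := by
  unfold D2; ring

/-- The binary structure: `τ` of the digit says whether the points with the other digit lie above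
(`1`) or below (`-1`) the lines spanned by a class. -/
structure Horton (N : ℕ) (g : ℕ → ℝ) (τ : ℕ → ℝ) : Prop where
  hτ : (τ 0 = 1 ∧ τ 1 = -1) ∨ (τ 0 = -1 ∧ τ 1 = 1)
  P : ∀ l u v w : ℕ, u < N → v < N → w < N → u < v → u % 2 ^ (l + 1) = v % 2 ^ (l + 1) →
    w % 2 ^ l = u % 2 ^ l → w % 2 ^ (l + 1) ≠ u % 2 ^ (l + 1) → 0 < τ (u / 2 ^ l % 2) * D2 g u v w

theorem Horton.neg {N : ℕ} {g τ : ℕ → ℝ} (h : Horton N g τ) :
    Horton N (fun i => - g i) (fun i => - τ i) := by
  refine ⟨?_, ?_⟩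
  · rcases h.hτ with ⟨h0, h1⟩ | ⟨h0, h1⟩
    · right; simp [h0, h1]
    · left; simp [h0, h1]
  · intro l u v w hu hv hw huv h1 h2 h3
    rw [D2_neg]
    have := h.P l u v w hu hv hw huv h1 h2 h3
    linarith

theorem Horton.τ_cases {N : ℕ} {g τ : ℕ → ℝ} (h : Horton N g τ) (x : ℕ) :
    τ (x % 2) = 1 ∨ τ (x % 2) = -1 := by
  rcases Nat.mod_two_eq_zero_or_one x with h0 | h0 <;> rw [h0] <;>
    rcases h.hτ with ⟨h1, h2⟩ | ⟨h1, h2⟩ <;> simp [h1, h2]

/-- `b`-ary digits determine congruence to the next power. -/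
theorem mod_pow_succ_iff (b : ℕ) (l u v : ℕ) (huv : u % b ^ l = v % b ^ l) :
    u % b ^ (l + 1) = v % b ^ (l + 1) ↔ u / b ^ l % b = v / b ^ l % b := by
  have e : ∀ x : ℕ, x % b ^ (l + 1) = x % b ^ l + b ^ l * (x / b ^ l % b) := by
    intro x
    rw [pow_succ, Nat.mod_mul]
  rw [e u, e v, huv]
  constructor
  · intro h
    rcases Nat.eq_zero_or_pos (b ^ l) with h0 | h0
    · simp [h0]
    · exact Nat.eq_of_mul_eq_mul_left h0 (Nat.add_left_cancel h)
  · intro h; rw [h]

theorem digit_eq_of_mod (b : ℕ) (l u v : ℕ) (huv : u % b ^ (l + 1) = v % b ^ (l + 1)) :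
    u / b ^ l % b = v / b ^ l % b := by
  have h1 : u % b ^ l = v % b ^ l := by
    have e1 : u % b ^ (l + 1) % b ^ l = u % b ^ l :=
      Nat.mod_mod_of_dvd _ (pow_dvd_pow _ (Nat.le_succ l))
    have e2 : v % b ^ (l + 1) % b ^ l = v % b ^ l :=
      Nat.mod_mod_of_dvd _ (pow_dvd_pow _ (Nat.le_succ l))
    rw [← e1, ← e2, huv]
  exact (mod_pow_succ_iff b l u v h1).1 huv

theorem mod_of_mod_pow (b : ℕ) {k l u v : ℕ} (hkl : k ≤ l) (h : u % b ^ l = v % b ^ l) :
    u % b ^ k = v % b ^ k := by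
  have e1 : u % b ^ l % b ^ k = u % b ^ k := Nat.mod_mod_of_dvd _ (pow_dvd_pow _ hkl)
  have e2 : v % b ^ l % b ^ k = v % b ^ k := Nat.mod_mod_of_dvd _ (pow_dvd_pow _ hkl)
  rw [← e1, ← e2, h]

/-- Splitting level of a set of at least two numbers. -/
theorem exists_split (b : ℕ) (hb : 2 ≤ b) (S : Finset ℕ) (hS : 2 ≤ S.card) (k : ℕ)
    (hk : ∀ x ∈ S, ∀ y ∈ S, x % b ^ k = y % b ^ k) :
    ∃ l, k ≤ l ∧ (∀ x ∈ S, ∀ y ∈ S, x % b ^ l = y % b ^ l) ∧
      ∃ x ∈ S, ∃ y ∈ S, x % b ^ (l + 1) ≠ y % b ^ (l + 1) := by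
  classical
  have hex : ∃ l, ∃ x ∈ S, ∃ y ∈ S, x % b ^ (l + 1) ≠ y % b ^ (l + 1) := by
    obtain ⟨x, hx, y, hy, hxy⟩ := Finset.one_lt_card.1 (by omega : 1 < S.card)
    refine ⟨max x y, x, hx, y, hy, ?_⟩
    have h1 : max x y < b ^ (max x y + 1) :=
      lt_of_lt_of_le (Nat.lt_pow_self (by omega : 1 < b)) (Nat.pow_le_pow_right (by omega) (Nat.le_succ _))
    rw [Nat.mod_eq_of_lt (lt_of_le_of_lt (le_max_left x y) h1),
      Nat.mod_eq_of_lt (lt_of_le_of_lt (le_max_right x y) h1)]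
    exact hxy
  set l := Nat.find hex with hl
  have hspec := Nat.find_spec hex
  have hall : ∀ x ∈ S, ∀ y ∈ S, x % b ^ l = y % b ^ l := by
    rcases Nat.eq_zero_or_pos l with h0 | h0
    · intro x _ y _
      rw [h0, pow_zero, Nat.mod_one, Nat.mod_one]
    · have := Nat.find_min hex (show l - 1 < Nat.find hex by omega)
      push Not at this
      have e : l - 1 + 1 = l := by omega
      rw [e] at this
      exact this
  refine ⟨l, ?_, hall, hspec⟩
  by_contra hcon
  obtain ⟨x, hx, y, hy, hxy⟩ := hspec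
  exact hxy (mod_of_mod_pow b (by omega) (hk x hx y hy))

/-- Representatives of a pair of residue classes in an interval. -/
theorem exists_rep (m q : ℕ) (hm : 0 < m) (hq : 0 < q) (hc : Nat.Coprime m q) (r1 r2 A : ℕ) :
    ∃ y, A ≤ y ∧ y < A + m * q ∧ y % m = r1 % m ∧ y % q = r2 % q := by
  obtain ⟨z, hz1, hz2⟩ := Nat.chineseRemainder hc r1 r2
  have hmq : 0 < m * q := Nat.mul_pos hm hq
  refine ⟨A + (z + (m * q - A % (m * q))) % (m * q), Nat.le_add_right _ _,
    Nat.add_lt_add_left (Nat.mod_lt _ hmq) _, ?_, ?_⟩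
  · have key : A + (z + (m * q - A % (m * q))) % (m * q) ≡ z [MOD (m * q)] := by
      have hlt := Nat.mod_lt A hmq
      have h1 : A + (z + (m * q - A % (m * q))) = z + m * q * (A / (m * q) + 1) := by
        have := Nat.div_add_mod A (m * q)
        rw [mul_add, mul_one]
        omega
      calc A + (z + (m * q - A % (m * q))) % (m * q)
          ≡ A + (z + (m * q - A % (m * q))) [MOD (m * q)] :=
            Nat.ModEq.add_left _ (Nat.mod_modEq _ _)
        _ = z + m * q * (A / (m * q) + 1) := h1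
        _ ≡ z [MOD (m * q)] := by
            have : z + m * q * (A / (m * q) + 1) ≡ z + 0 [MOD (m * q)] :=
              Nat.ModEq.add_left _ ((Nat.modEq_zero_iff_dvd).2 (dvd_mul_right _ _))
            simpa using this
    exact (Nat.ModEq.of_mul_right q key).trans hz1
  · have key : A + (z + (m * q - A % (m * q))) % (m * q) ≡ z [MOD (m * q)] := by
      have hlt := Nat.mod_lt A hmq
      have h1 : A + (z + (m * q - A % (m * q))) = z + m * q * (A / (m * q) + 1) := by
        have := Nat.div_add_mod A (m * q)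
        rw [mul_add, mul_one]
        omega
      calc A + (z + (m * q - A % (m * q))) % (m * q)
          ≡ A + (z + (m * q - A % (m * q))) [MOD (m * q)] :=
            Nat.ModEq.add_left _ (Nat.mod_modEq _ _)
        _ = z + m * q * (A / (m * q) + 1) := h1
        _ ≡ z [MOD (m * q)] := by
            have : z + m * q * (A / (m * q) + 1) ≡ z + 0 [MOD (m * q)] :=
              Nat.ModEq.add_left _ ((Nat.modEq_zero_iff_dvd).2 (dvd_mul_right _ _))
            simpa using this
    exact (Nat.ModEq.of_mul_left m key).trans hz2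

end Pool.Agent.MPcc1856
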