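import Pool.Agent.MPcc1856.Cup

set_option autoImplicit false

/-!
The three-dimensional structure with ternary digits.
-/

namespace Pool.Agent.MPcc1856

/-- Orientation of four points. -/
def D3 (g h : ℕ → ℝ) (a b c d : ℕ) : ℝ :=
  D2 g a b c * h d - D2 g d b c * h a - D2 g a d c * h b - D2 g a b d * h c

theorem D3_neg (g h : ℕ → ℝ) (a b c d : ℕ) : D3 g (fun i => - h i) a b c d = - D3 g h a b c d := by
  unfold D3; ring

theorem D3_swap12 (g h : ℕ → ℝ) (a b c d : ℕ) : D3 g h a b c d = - D3 g h b a c d := by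
  unfold D3 D2; ring

theorem D3_swap34 (g h : ℕ → ℝ) (a b c d : ℕ) : D3 g h a b c d = - D3 g h a b d c := by
  unfold D3 D2; ring

/-- The ternary structure. -/
structure Horton3 (N : ℕ) (g h : ℕ → ℝ) (ν : ℕ → ℤ) : Prop where
  inj : ∀ x < 3, ∀ y < 3, ν x = ν y → x = y
  up : ∀ r a b c d : ℕ, a < N → b < N → c < N → d < N → a % 3 ^ (r + 1) = b % 3 ^ (r + 1) →
    a % 3 ^ (r + 1) = c % 3 ^ (r + 1) → d % 3 ^ r = a % 3 ^ r → 0 < D2 g a b c →
    ν (a / 3 ^ r % 3) < ν (d / 3 ^ r % 3) → 0 < D3 g h a b c d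
  down : ∀ r a b c d : ℕ, a < N → b < N → c < N → d < N → a % 3 ^ (r + 1) = b % 3 ^ (r + 1) →
    a % 3 ^ (r + 1) = c % 3 ^ (r + 1) → d % 3 ^ r = a % 3 ^ r → 0 < D2 g a b c →
    ν (d / 3 ^ r % 3) < ν (a / 3 ^ r % 3) → D3 g h a b c d < 0

theorem Horton3.neg {N : ℕ} {g h : ℕ → ℝ} {ν : ℕ → ℤ} (H : Horton3 N g h ν) :
    Horton3 N g (fun i => - h i) (fun x => - ν x) := by
  refine ⟨fun x hx y hy e => H.inj x hx y hy (neg_injective e), ?_, ?_⟩
  · intro r a b c d ha hb hc hd h1 h2 h3 h4 h5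
    rw [D3_neg]
    have := H.down r a b c d ha hb hc hd h1 h2 h3 h4 (by simpa using h5)
    linarith
  · intro r a b c d ha hb hc hd h1 h2 h3 h4 h5
    rw [D3_neg]
    have := H.up r a b c d ha hb hc hd h1 h2 h3 h4 (by simpa using h5)
    linarith

/-- No three points are collinear. -/
theorem Horton.ne_zero {N : ℕ} {g τ : ℕ → ℝ} (h : Horton N g τ) {a b c : ℕ} (ha : a < N)
    (hb : b < N) (hc : c < N) (hab : a ≠ b) (hac : a ≠ c) (hbc : b ≠ c) : D2 g a b c ≠ 0 := by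
  classical
  have hcard : ({a, b, c} : Finset ℕ).card = 3 := by
    rw [Finset.card_eq_three]; exact ⟨a, b, c, hab, hac, hbc, rfl⟩
  obtain ⟨l, -, hl, x, hx, y, hy, hxy⟩ := exists_split 2 le_rfl {a, b, c} (by omega) 0
    (by intro x _ y _; simp [Nat.mod_one])
  have hab' := hl a (by simp) b (by simp)
  have hac' := hl a (by simp) c (by simp)
  have hbc' := hl b (by simp) c (by simp)
  have key : ∀ u v w : ℕ, u < N → v < N → w < N → u ≠ v → u % 2 ^ l = v % 2 ^ l →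
      w % 2 ^ l = u % 2 ^ l → u % 2 ^ (l + 1) = v % 2 ^ (l + 1) →
      w % 2 ^ (l + 1) ≠ u % 2 ^ (l + 1) → D2 g u v w ≠ 0 := by
    intro u v w hu hv hw huv _ h2 h3 h4
    rcases lt_or_gt_of_ne huv with h5 | h5
    · have := h.P l u v w hu hv hw h5 h3 h2 h4
      intro h6; rw [h6, mul_zero] at this; exact lt_irrefl _ this
    · have := h.P l v u w hv hu hw h5 h3.symm (by rw [h2]; exact mod_of_mod_pow 2 (Nat.le_succ l) h3)
        (by rw [← h3]; exact h4)
      intro h6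
      rw [D2_swap12, h6, neg_zero, mul_zero] at this
      exact lt_irrefl _ this
  by_cases e1 : a % 2 ^ (l + 1) = b % 2 ^ (l + 1)
  · by_cases e2 : c % 2 ^ (l + 1) = a % 2 ^ (l + 1)
    · exfalso
      have : ∀ z ∈ ({a, b, c} : Finset ℕ), z % 2 ^ (l + 1) = a % 2 ^ (l + 1) := by
        intro z hz
        simp only [Finset.mem_insert, Finset.mem_singleton] at hz
        rcases hz with rfl | rfl | rfl
        · rfl
        · exact e1.symm
        · exact e2
      exact hxy ((this x hx).trans (this y hy).symm)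
    · exact key a b c ha hb hc hab hab' hac'.symm e1 e2
  · by_cases e2 : c % 2 ^ (l + 1) = a % 2 ^ (l + 1)
    · rw [D2_swap23]
      exact neg_ne_zero.2 (key a c b ha hc hb hac hac' hab'.symm e2.symm (Ne.symm e1))
    · have e3 : b % 2 ^ (l + 1) = c % 2 ^ (l + 1) := by
        rw [mod_pow_succ_iff 2 l _ _ hbc']
        rw [mod_pow_succ_iff 2 l _ _ hab'] at e1
        rw [mod_pow_succ_iff 2 l _ _ hac'.symm] at e2
        omega
      have := key b c a hb hc ha hbc hbc' hab' e3 e1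
      have e4 : D2 g a b c = D2 g b c a := by unfold D2; ring
      rw [e4]; exact this

/-- Given `y` inside a triangle and a further point `e`, `y` lies in a triangle with vertex `e`. -/
theorem fan {N : ℕ} {g τ : ℕ → ℝ} (h : Horton N g τ) {a b c e y : ℕ} (ha : a < N) (hb : b < N)
    (hc : c < N) (he : e < N) (hy : y < N) (hin : InTri g a b c y)
    (hae : a ≠ e) (hbe : b ≠ e) (hce : c ≠ e) (hye : y ≠ e) :
    InTri g a b e y ∨ InTri g b c e y ∨ InTri g c a e y := by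
  obtain ⟨o, o1, o2, o3⟩ := hin
  have hya : y ≠ a := by rintro rfl; rw [show D2 g y y c = 0 by unfold D2; ring] at o2; exact lt_irrefl _ o2
  have hyb : y ≠ b := by rintro rfl; rw [show D2 g y y c = 0 by unfold D2; ring] at o1; exact lt_irrefl _ o1
  have hyc : y ≠ c := by rintro rfl; rw [show D2 g y b y = 0 by unfold D2; ring] at o1; exact lt_irrefl _ o1
  have hA := h.ne_zero hy ha he hya hye hae
  have hB := h.ne_zero hy hb he hyb hye hbe
  have hC := h.ne_zero hy hc he hyc hye hce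
  have hrel : D2 g y b c * D2 g y a e + D2 g a y c * D2 g y b e + D2 g a b y * D2 g y c e = 0 := by
    unfold D2; ring
  -- build a triangle from a sign change
  have build : ∀ p q : ℕ, 0 < D2 g p q y → D2 g y p e < 0 → 0 < D2 g y q e → InTri g p q e y := by
    intro p q h1 h2 h3
    have h4 : 0 < D2 g p y e := by rw [D2_swap12]; linarith
    refine ⟨?_, h3, h4, h1⟩
    rw [D2_sum g p q e y]
    linarith
  have ebc : D2 g b c y = D2 g y b c := by unfold D2; ring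
  have eca : D2 g c a y = D2 g a y c := by unfold D2; ring
  rcases lt_or_gt_of_ne hA with hA | hA
  · rcases lt_or_gt_of_ne hB with hB | hB
    · rcases lt_or_gt_of_ne hC with hC | hC
      · exfalso
        nlinarith [mul_pos o1 (neg_pos.2 hA), mul_pos o2 (neg_pos.2 hB), mul_pos o3 (neg_pos.2 hC)]
      · right; left
        exact build b c (by rw [ebc]; exact o1) hB hC
    · left
      exact build a b o3 hA hB
  · rcases lt_or_gt_of_ne hB with hB | hB
    · rcases lt_or_gt_of_ne hC with hC | hC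
      · right; right
        exact build c a (by rw [eca]; exact o2) hC hA
      · right; left
        exact build b c (by rw [ebc]; exact o1) hB hC
    · rcases lt_or_gt_of_ne hC with hC | hC
      · right; right
        exact build c a (by rw [eca]; exact o2) hC hA
      · exfalso
        nlinarith [mul_pos o1 hA, mul_pos o2 hB, mul_pos o3 hC]

/-- Pigeonhole over the ternary digit. -/
theorem digit_pigeon (S : Finset ℕ) (r m : ℕ) (hS : 3 * m < S.card) :
    ∃ e < 3, m < (S.filter (fun x => x / 3 ^ r % 3 = e)).card := by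
  classical
  by_contra hcon
  push Not at hcon
  have h1 : S.card = ∑ e ∈ Finset.range 3, (S.filter (fun x => x / 3 ^ r % 3 = e)).card := by
    apply Finset.card_eq_sum_card_fiberwise
    intro x _
    exact Finset.mem_range.2 (Nat.mod_lt _ (by norm_num))
  rw [Finset.sum_range_succ, Finset.sum_range_succ, Finset.sum_range_succ, Finset.sum_range_zero] at h1
  have e0 := hcon 0 (by norm_num)
  have e1 := hcon 1 (by norm_num)
  have e2 := hcon 2 (by norm_num)
  omega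

/-- The residue classes of the ternary refinement. -/
theorem exists_class (r x e : ℕ) (he : e < 3) :
    ∃ c', ∀ y, y % 3 ^ (r + 1) = c' % 3 ^ (r + 1) → y % 3 ^ r = x % 3 ^ r ∧ y / 3 ^ r % 3 = e := by
  refine ⟨x % 3 ^ r + 3 ^ r * e, fun y hy => ?_⟩
  have hp : 0 < 3 ^ r := by positivity
  have h1 : (x % 3 ^ r + 3 ^ r * e) % 3 ^ r = x % 3 ^ r := by simp
  have h2 : (x % 3 ^ r + 3 ^ r * e) / 3 ^ r % 3 = e := by
    rw [Nat.add_mul_div_left _ _ hp, Nat.div_eq_of_lt (Nat.mod_lt _ hp), zero_add,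
      Nat.mod_eq_of_lt he]
  refine ⟨?_, ?_⟩
  · rw [mod_of_mod_pow 3 (Nat.le_succ r) hy, h1]
  · rw [digit_eq_of_mod 3 r _ _ hy, h2]

/-- Claim A: nineteen points contain a triangle with a point of the same class strictly above. -/
theorem above {N : ℕ} {g τ h : ℕ → ℝ} {ν : ℕ → ℤ} (hg : Horton N g τ) (H : Horton3 N g h ν)
    (k : ℕ) (V : Finset ℕ) (hV : 19 ≤ V.card) (hN : ∀ x ∈ V, x < N)
    (hk : ∀ x ∈ V, ∀ y ∈ V, x % 3 ^ k = y % 3 ^ k) :
    ∃ a ∈ V, ∃ b ∈ V, ∃ c ∈ V, ∃ y < N, y % 3 ^ k = a % 3 ^ k ∧ InTri g a b c y ∧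
      0 < D3 g h a b c y := by
  classical
  obtain ⟨r, hkr, hr, x0, hx0, y0, hy0, hxy0⟩ := exists_split 3 (by norm_num) V (by omega) k hk
  obtain ⟨e, he, hcard⟩ := digit_pigeon V r 6 (by omega)
  set U := V.filter (fun x => x / 3 ^ r % 3 = e) with hU
  have hUV : ∀ x ∈ U, x ∈ V := fun x hx => (Finset.mem_filter.1 hx).1
  have hUe : ∀ x ∈ U, x / 3 ^ r % 3 = e := fun x hx => (Finset.mem_filter.1 hx).2
  have hUU : ∀ x ∈ U, ∀ y ∈ U, x % 3 ^ (r + 1) = y % 3 ^ (r + 1) := fun x hx y hy =>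
    (mod_pow_succ_iff 3 r x y (hr x (hUV x hx) y (hUV y hy))).2 ((hUe x hx).trans (hUe y hy).symm)
  have hodd : Nat.Coprime 2 (3 ^ (r + 1)) := Nat.Coprime.pow_right _ (by norm_num)
  by_cases htop : ∃ e' < 3, ν e < ν e'
  · obtain ⟨e', he', hlt⟩ := htop
    obtain ⟨c', hc'⟩ := exists_class r x0 e' he'
    obtain ⟨a, ha, b, hb, c, hc, y, hy, hyc, hin⟩ := planar hg (by positivity) hodd c' U (by omega)
      (fun x hx => hN x (hUV x hx)) hUU
    obtain ⟨hy1, hy2⟩ := hc' y hyc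
    have hya : y % 3 ^ r = a % 3 ^ r := by rw [hy1]; exact hr x0 hx0 a (hUV a ha)
    refine ⟨a, hUV a ha, b, hUV b hb, c, hUV c hc, y, hy, mod_of_mod_pow 3 hkr hya, hin, ?_⟩
    exact H.up r a b c y (hN a (hUV a ha)) (hN b (hUV b hb)) (hN c (hUV c hc)) hy
      (hUU a ha b hb) (hUU a ha c hc) hya hin.o (by rw [hUe a ha, hy2]; exact hlt)
  · push Not at htop
    -- a point of `V` with a different digit
    obtain ⟨v, hv, hve⟩ : ∃ v ∈ V, v / 3 ^ r % 3 ≠ e := by
      by_contra hcon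
      push Not at hcon
      exact hxy0 ((mod_pow_succ_iff 3 r x0 y0 (hr x0 hx0 y0 hy0)).2
        ((hcon x0 hx0).trans (hcon y0 hy0).symm))
    have hv3 : v / 3 ^ r % 3 < 3 := Nat.mod_lt _ (by norm_num)
    have hvν : ν (v / 3 ^ r % 3) < ν e := by
      rcases lt_or_eq_of_le (htop _ hv3) with h1 | h1
      · exact h1
      · exact absurd (H.inj _ hv3 _ he h1) hve
    obtain ⟨u0, hu0⟩ : U.Nonempty := Finset.card_pos.1 (by omega)
    obtain ⟨a, ha, b, hb, c, hc, y, hy, hyc, hin⟩ := planar hg (by positivity) hodd u0 U (by omega)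
      (fun x hx => hN x (hUV x hx)) hUU
    have hyU : ∀ x ∈ U, y % 3 ^ (r + 1) = x % 3 ^ (r + 1) := fun x hx => hyc.trans (hUU u0 hu0 x hx)
    have hvU : ∀ x, x % 3 ^ (r + 1) = u0 % 3 ^ (r + 1) → x ≠ v := by
      rintro x hx rfl
      apply hve
      rw [digit_eq_of_mod 3 r x u0 hx]
      exact hUe u0 hu0
    have haN := hN a (hUV a ha)
    have hbN := hN b (hUV b hb)
    have hcN := hN c (hUV c hc)
    have hvN := hN v hv
    have hfan := fan hg haN hbN hcN hvN hy hin (hvU a (hUU a ha u0 hu0)) (hvU b (hUU b hb u0 hu0))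
      (hvU c (hUU c hc u0 hu0)) (hvU y hyc)
    have fin : ∀ p ∈ U, ∀ q ∈ U, InTri g p q v y → ∃ a ∈ V, ∃ b ∈ V, ∃ c ∈ V, ∃ y < N,
        y % 3 ^ k = a % 3 ^ k ∧ InTri g a b c y ∧ 0 < D3 g h a b c y := by
      intro p hp q hq hin'
      refine ⟨p, hUV p hp, q, hUV q hq, v, hv, y, hy,
        mod_of_mod_pow 3 (by omega : k ≤ r + 1) (hyU p hp), hin', ?_⟩
      rw [D3_swap34]
      have := H.down r p q y v (hN p (hUV p hp)) (hN q (hUV q hq)) hy hvN (hUU p hp q hq)
        (hyU p hp).symm (hr v hv p (hUV p hp)) hin'.o3 (by rw [hUe p hp]; exact hvν)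
      linarith
    rcases hfan with h1 | h1 | h1
    · exact fin a ha b hb h1
    · exact fin b hb c hc h1
    · exact fin c hc a ha h1

/-- The point `y` lies in the interior of the positively oriented tetrahedron `a b c d`. -/
structure InTet (g h : ℕ → ℝ) (a b c d y : ℕ) : Prop where
  o : 0 < D3 g h a b c d
  o1 : 0 < D3 g h y b c d
  o2 : 0 < D3 g h a y c d
  o3 : 0 < D3 g h a b y d
  o4 : 0 < D3 g h a b c y

theorem tet_up {N : ℕ} {g τ h : ℕ → ℝ} {ν : ℕ → ℤ} (hg : Horton N g τ) (H : Horton3 N g h ν)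
    (r : ℕ) (V : Finset ℕ) (hV : 19 ≤ V.card) (hN : ∀ x ∈ V, x < N)
    (hk : ∀ x ∈ V, ∀ y ∈ V, x % 3 ^ (r + 1) = y % 3 ^ (r + 1)) (s : ℕ) (hs : s < N)
    (hsr : ∀ x ∈ V, s % 3 ^ r = x % 3 ^ r) (hsν : ∀ x ∈ V, ν (x / 3 ^ r % 3) < ν (s / 3 ^ r % 3)) :
    ∃ a ∈ V, ∃ b ∈ V, ∃ c ∈ V, ∃ y < N, InTet g h a b c s y := by
  obtain ⟨a, ha, b, hb, c, hc, y, hy, hya, hin, h3⟩ := above hg H (r + 1) V hV hN hk
  have hyν : ν (y / 3 ^ r % 3) < ν (s / 3 ^ r % 3) := by
    rw [digit_eq_of_mod 3 r y a hya]; exact hsν a ha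
  have hsy : s % 3 ^ r = y % 3 ^ r := by
    rw [hsr a ha]; exact (mod_of_mod_pow 3 (Nat.le_succ r) hya).symm
  have hab := hk a ha b hb
  have hac := hk a ha c hc
  refine ⟨a, ha, b, hb, c, hc, y, hy, ⟨?_, ?_, ?_, ?_, h3⟩⟩
  · exact H.up r a b c s (hN a ha) (hN b hb) (hN c hc) hs hab hac (hsr a ha) hin.o (hsν a ha)
  · exact H.up r y b c s hy (hN b hb) (hN c hc) hs (hya.trans hab) (hya.trans hac) hsy hin.o1 hyν
  · exact H.up r a y c s (hN a ha) hy (hN c hc) hs hya.symm hac (hsr a ha) hin.o2 (hsν a ha)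
  · exact H.up r a b y s (hN a ha) (hN b hb) hy hs hab hya.symm (hsr a ha) hin.o3 (hsν a ha)

/-- Claim B: fifty-five points contain a tetrahedron with a point of the set in its interior. -/
theorem tet {N : ℕ} {g τ h : ℕ → ℝ} {ν : ℕ → ℤ} (hg : Horton N g τ) (H : Horton3 N g h ν)
    (S : Finset ℕ) (hS : 55 ≤ S.card) (hN : ∀ x ∈ S, x < N) :
    ∃ a ∈ S, ∃ b ∈ S, ∃ c ∈ S, ∃ d ∈ S, ∃ y < N, InTet g h a b c d y := by
  classical
  obtain ⟨r, -, hr, x0, hx0, y0, hy0, hxy0⟩ := exists_split 3 (by norm_num) S (by omega) 0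
    (by intro x _ y _; simp [Nat.mod_one])
  obtain ⟨e, he, hcard⟩ := digit_pigeon S r 18 (by omega)
  set V := S.filter (fun x => x / 3 ^ r % 3 = e) with hV
  have hVS : ∀ x ∈ V, x ∈ S := fun x hx => (Finset.mem_filter.1 hx).1
  have hVe : ∀ x ∈ V, x / 3 ^ r % 3 = e := fun x hx => (Finset.mem_filter.1 hx).2
  have hVV : ∀ x ∈ V, ∀ y ∈ V, x % 3 ^ (r + 1) = y % 3 ^ (r + 1) := fun x hx y hy =>
    (mod_pow_succ_iff 3 r x y (hr x (hVS x hx) y (hVS y hy))).2 ((hVe x hx).trans (hVe y hy).symm)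
  obtain ⟨s, hs, hse⟩ : ∃ s ∈ S, s / 3 ^ r % 3 ≠ e := by
    by_contra hcon
    push Not at hcon
    exact hxy0 ((mod_pow_succ_iff 3 r x0 y0 (hr x0 hx0 y0 hy0)).2
      ((hcon x0 hx0).trans (hcon y0 hy0).symm))
  have hs3 : s / 3 ^ r % 3 < 3 := Nat.mod_lt _ (by norm_num)
  have hne : ν (s / 3 ^ r % 3) ≠ ν e := fun h1 => hse (H.inj _ hs3 _ he h1)
  rcases lt_or_gt_of_ne hne with hlt | hgt
  · obtain ⟨a, ha, b, hb, c, hc, y, hy, hin⟩ := tet_up hg H.neg r V (by omega)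
      (fun x hx => hN x (hVS x hx)) hVV s (hN s hs) (fun x hx => hr s hs x (hVS x hx))
      (fun x hx => by rw [hVe x hx]; simpa using hlt)
    refine ⟨b, hVS b hb, a, hVS a ha, c, hVS c hc, s, hs, y, hy, ?_⟩
    obtain ⟨o, o1, o2, o3, o4⟩ := hin
    rw [D3_neg] at o o1 o2 o3 o4
    refine ⟨?_, ?_, ?_, ?_, ?_⟩
    · rw [D3_swap12]; exact o
    · rw [D3_swap12]; exact o2
    · rw [D3_swap12]; exact o1
    · rw [D3_swap12]; exact o3
    · rw [D3_swap12]; exact o4
  · obtain ⟨a, ha, b, hb, c, hc, y, hy, hin⟩ := tet_up hg H r V (by omega)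
      (fun x hx => hN x (hVS x hx)) hVV s (hN s hs) (fun x hx => hr s hs x (hVS x hx))
      (fun x hx => by rw [hVe x hx]; exact hgt)
    exact ⟨a, hVS a ha, b, hVS b hb, c, hVS c hc, s, hs, y, hy, hin⟩

end Pool.Agent.MPcc1856
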